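import Mathlib

/-!
Distance to the nearest integer, the Takagi function and Boros' inequality.
-/

set_option autoImplicit false

namespace Pool.Agent.Y507.WC

open Finset Filter Topology

/-- distance to the nearest integer -/
noncomputable def dn (t : ℝ) : ℝ := |t - round t|

lemma dn_nonneg (t : ℝ) : 0 ≤ dn t := abs_nonneg _

lemma dn_le_half (t : ℝ) : dn t ≤ 1 / 2 := abs_sub_round t

lemma dn_le (t : ℝ) (n : ℤ) : dn t ≤ |t - n| := round_le t n

lemma dn_add_int (t : ℝ) (n : ℤ) : dn (t + n) = dn t := by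
  unfold dn
  rw [round_add_intCast]
  push_cast
  congr 1
  ring

lemma dn_int (n : ℤ) : dn n = 0 := by
  have := dn_le (n : ℝ) n
  rw [sub_self, abs_zero] at this
  exact le_antisymm this (dn_nonneg _)

lemma dn_neg (t : ℝ) : dn (-t) = dn t := by
  apply le_antisymm
  · have := dn_le (-t) (-round t)
    push_cast at this
    rw [show -t - -(round t : ℝ) = -(t - round t) by ring, abs_neg] at this
    exact this
  · have := dn_le t (-round (-t))
    push_cast at this
    rw [show t - -(round (-t) : ℝ) = -(-t - round (-t)) by ring, abs_neg] at this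
    exact this

lemma dn_add_le (s t : ℝ) : dn (s + t) ≤ dn s + dn t := by
  have := dn_le (s + t) (round s + round t)
  push_cast at this
  refine this.trans ?_
  rw [show s + t - ((round s : ℝ) + round t) = (s - round s) + (t - round t) by ring]
  exact abs_add_le _ _

/-- distance to half integers -/
lemma half_le_dn (t : ℝ) (k : ℤ) : 1 / 2 - |t - (k + 1 / 2)| ≤ dn t := by
  unfold dn
  have h1 : (1 : ℝ) / 2 ≤ |(round t : ℝ) - (k + 1 / 2)| := by
    rcases le_or_gt (round t) k with h | h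
    · have h' : (round t : ℝ) ≤ k := by exact_mod_cast h
      rw [abs_of_nonpos (by linarith)]
      linarith
    · have h' : (k : ℝ) + 1 ≤ round t := by exact_mod_cast h
      rw [abs_of_nonneg (by linarith)]
      linarith
  have h2 := abs_sub_le (round t : ℝ) t (k + 1 / 2)
  rw [abs_sub_comm (round t : ℝ) t] at h2
  linarith

lemma dn_eq_of_le_half {t : ℝ} (h0 : 0 ≤ t) (h1 : t ≤ 1 / 2) : dn t = t := by
  apply le_antisymm
  · have := dn_le t 0
    rwa [Int.cast_zero, sub_zero, abs_of_nonneg h0] at this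
  · have := half_le_dn t 0
    rw [Int.cast_zero, abs_of_nonpos (by linarith)] at this
    linarith

lemma dn_eq_of_half_le {t : ℝ} (h0 : 1 / 2 ≤ t) (h1 : t ≤ 1) : dn t = 1 - t := by
  apply le_antisymm
  · have := dn_le t 1
    rwa [Int.cast_one, abs_of_nonpos (by linarith), neg_sub] at this
  · have := half_le_dn t 0
    rw [Int.cast_zero, abs_of_nonneg (by linarith)] at this
    linarith

/-- every real is close to a half integer, at distance `1/2 - dn` -/
lemma exists_half (t : ℝ) : ∃ k : ℤ, |t - (k + 1 / 2)| = 1 / 2 - dn t := by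
  set u := Int.fract t with hu
  have h0 := Int.fract_nonneg t
  have h1 := Int.fract_lt_one t
  have e : t = u + ⌊t⌋ := by rw [hu]; exact (Int.fract_add_floor t).symm
  have e2 : dn t = dn u := by
    conv_lhs => rw [e]
    exact dn_add_int _ _
  refine ⟨⌊t⌋, ?_⟩
  have e3 : t - (⌊t⌋ + 1 / 2) = u - 1 / 2 := by linarith
  rw [e3, e2]
  rcases le_total u (1 / 2) with h | h
  · rw [dn_eq_of_le_half h0 h, abs_of_nonpos (by linarith)]
    ring
  · rw [dn_eq_of_half_le h h1.le, abs_of_nonneg (by linarith)]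
    ring

/-- second difference of the distance function -/
lemma dn_second (k : ℤ) (s v : ℝ) (hs : |s| ≤ v) (hk : dn (k + 1 / 2 + s) = 1 / 2 - |s|) :
    -2 * (v - |s|) ≤ dn (k + 1 / 2 + s + v) + dn (k + 1 / 2 + s - v) - 2 * dn (k + 1 / 2 + s) := by
  have h1 := half_le_dn (k + 1 / 2 + s + v) k
  have h2 := half_le_dn (k + 1 / 2 + s - v) k
  have e1 : |(k : ℝ) + 1 / 2 + s + v - (k + 1 / 2)| = s + v := by
    rw [show (k : ℝ) + 1 / 2 + s + v - (k + 1 / 2) = s + v by ring]
    exact abs_of_nonneg (by linarith [(abs_le.1 hs).1])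
  have e2 : |(k : ℝ) + 1 / 2 + s - v - (k + 1 / 2)| = v - s := by
    rw [show (k : ℝ) + 1 / 2 + s - v - (k + 1 / 2) = -(v - s) by ring, abs_neg]
    exact abs_of_nonneg (by linarith [(abs_le.1 hs).2])
  rw [e1] at h1
  rw [e2] at h2
  rw [hk]
  linarith

lemma dn_second' (k : ℤ) (s v : ℝ) (hv : 0 ≤ v) (hs : v ≤ |s|)
    (hk : dn (k + 1 / 2 + s) = 1 / 2 - |s|) :
    0 ≤ dn (k + 1 / 2 + s + v) + dn (k + 1 / 2 + s - v) - 2 * dn (k + 1 / 2 + s) := by
  have h1 := half_le_dn (k + 1 / 2 + s + v) k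
  have h2 := half_le_dn (k + 1 / 2 + s - v) k
  rw [show (k : ℝ) + 1 / 2 + s + v - (k + 1 / 2) = s + v by ring] at h1
  rw [show (k : ℝ) + 1 / 2 + s - v - (k + 1 / 2) = s - v by ring] at h2
  rw [hk]
  rcases abs_cases s with ⟨h, h'⟩ | ⟨h, h'⟩
  · rw [h] at hs ⊢
    rw [abs_of_nonneg (by linarith)] at h1 h2
    linarith
  · rw [h] at hs ⊢
    rw [abs_of_nonpos (by linarith)] at h1 h2
    linarith

/-- truncated sums of twice the Takagi function -/
noncomputable def Tn (n : ℕ) (x : ℝ) : ℝ := ∑ k ∈ range n, 2 * dn (2 ^ k * x) / 2 ^ k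

lemma Tn_zero (x : ℝ) : Tn 0 x = 0 := by simp [Tn]

lemma Tn_succ (n : ℕ) (x : ℝ) : Tn (n + 1) x = 2 * dn x + Tn n (2 * x) / 2 := by
  unfold Tn
  rw [Finset.sum_range_succ', Finset.sum_div]
  rw [add_comm]
  congr 1
  · simp
  · refine Finset.sum_congr rfl fun k _ => ?_
    rw [show (2 : ℝ) ^ (k + 1) * x = 2 ^ k * (2 * x) by ring, pow_succ]
    field_simp

lemma Tn_le_succ (n : ℕ) (x : ℝ) : Tn n x ≤ Tn (n + 1) x := by
  unfold Tn
  rw [Finset.sum_range_succ]
  have : 0 ≤ 2 * dn (2 ^ n * x) / 2 ^ n := by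
    have := dn_nonneg (2 ^ n * x)
    positivity
  linarith

lemma Tn_nonneg (n : ℕ) (x : ℝ) : 0 ≤ Tn n x :=
  Finset.sum_nonneg fun k _ => by
    have := dn_nonneg (2 ^ k * x)
    positivity

lemma Tn_add_int (n : ℕ) (x : ℝ) (z : ℤ) : Tn n (x + z) = Tn n x := by
  unfold Tn
  refine Finset.sum_congr rfl fun k _ => ?_
  have : (2 : ℝ) ^ k * (x + z) = 2 ^ k * x + ((2 ^ k * z : ℤ) : ℝ) := by
    push_cast
    ring
  rw [this, dn_add_int]

lemma Tn_neg (n : ℕ) (x : ℝ) : Tn n (-x) = Tn n x := by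
  unfold Tn
  refine Finset.sum_congr rfl fun k _ => ?_
  rw [mul_neg, dn_neg]

lemma Tn_add_le (n : ℕ) (x y : ℝ) : Tn n (x + y) ≤ Tn n x + Tn n y := by
  unfold Tn
  rw [← Finset.sum_add_distrib]
  refine Finset.sum_le_sum fun k _ => ?_
  rw [← add_div, ← mul_add, mul_add (2 ^ k)]
  have := dn_add_le (2 ^ k * x) (2 ^ k * y)
  have h2 : (0 : ℝ) < 2 ^ k := by positivity
  gcongr

/-- Boros' inequality for the truncated sums -/
theorem Tn_boros (n : ℕ) : ∀ u v : ℝ, 0 ≤ v → -4 * v ≤ Tn n (u + v) + Tn n (u - v) - 2 * Tn n u := by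
  induction n with
  | zero => intro u v hv; simp only [Tn_zero]; linarith
  | succ n ih =>
    intro u v hv
    obtain ⟨k, hk⟩ := exists_half u
    set s := u - (k + 1 / 2) with hs
    have hu : u = k + 1 / 2 + s := by rw [hs]; ring
    have hdu : dn ((k : ℝ) + 1 / 2 + s) = 1 / 2 - |s| := by
      rw [← hu, hk]; ring
    rw [Tn_succ, Tn_succ, Tn_succ]
    rcases le_total v |s| with h | h
    · have h1 := dn_second' k s v hv h hdu
      rw [← hu] at h1
      have h2 := ih (2 * u) (2 * v) (by linarith)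
      rw [← mul_add, ← mul_sub] at h2
      linarith
    · have h1 := dn_second k s v h hdu
      rw [← hu] at h1
      have e1 : 2 * (u + v) = (2 * s + 2 * v) + ((2 * k + 1 : ℤ) : ℝ) := by
        rw [hu]; push_cast; ring
      have e2 : 2 * (u - v) = (2 * s - 2 * v) + ((2 * k + 1 : ℤ) : ℝ) := by
        rw [hu]; push_cast; ring
      have e3 : 2 * u = 2 * s + ((2 * k + 1 : ℤ) : ℝ) := by
        rw [hu]; push_cast; ring
      rw [e1, e2, e3, Tn_add_int, Tn_add_int, Tn_add_int]
      -- `2 Tₙ(2s) ≤ 8|s| + Tₙ(4s)` and `Tₙ(4s) ≤ Tₙ(2s+2v) + Tₙ(2s-2v)`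
      have h3 : Tn n (4 * s) ≤ Tn n (2 * s + 2 * v) + Tn n (2 * s - 2 * v) := by
        have := Tn_add_le n (2 * s + 2 * v) (2 * s - 2 * v)
        rwa [show 2 * s + 2 * v + (2 * s - 2 * v) = 4 * s by ring] at this
      have h4 : 2 * Tn n (2 * s) ≤ 8 * |s| + Tn n (4 * s) := by
        have h5 := Tn_le_succ n (2 * s)
        rw [Tn_succ, show 2 * (2 * s) = 4 * s by ring] at h5
        have h6 := dn_le (2 * s) 0
        rw [Int.cast_zero, sub_zero, abs_mul, abs_of_pos (show (0 : ℝ) < 2 by norm_num)] at h6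
        linarith
      linarith

/-- the terms are summable -/
lemma summable_T (x : ℝ) : Summable fun k : ℕ => 2 * dn (2 ^ k * x) / 2 ^ k := by
  refine Summable.of_nonneg_of_le (fun k => ?_) (fun k => ?_) summable_geometric_two
  · have := dn_nonneg (2 ^ k * x)
    positivity
  · have := dn_le_half (2 ^ k * x)
    rw [one_div_pow]
    have h2 : (0 : ℝ) < 2 ^ k := by positivity
    gcongr
    linarith

/-- twice the Takagi function -/
noncomputable def T (x : ℝ) : ℝ := ∑' k : ℕ, 2 * dn (2 ^ k * x) / 2 ^ k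

lemma T_tendsto (x : ℝ) : Tendsto (fun n => Tn n x) atTop (𝓝 (T x)) :=
  (summable_T x).hasSum.tendsto_sum_nat

lemma T_nonneg (x : ℝ) : 0 ≤ T x := tsum_nonneg fun k => by
  have := dn_nonneg (2 ^ k * x)
  positivity

lemma T_le_two (x : ℝ) : T x ≤ 2 := by
  refine le_of_tendsto (T_tendsto x) (Eventually.of_forall fun n => ?_)
  unfold Tn
  calc ∑ k ∈ range n, 2 * dn (2 ^ k * x) / 2 ^ k ≤ ∑ k ∈ range n, (1 / 2 : ℝ) ^ k := by
        refine Finset.sum_le_sum fun k _ => ?_
        have := dn_le_half (2 ^ k * x)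
        rw [one_div_pow]
        have h2 : (0 : ℝ) < 2 ^ k := by positivity
        gcongr
        linarith
    _ ≤ 2 := sum_geometric_two_le n

/-- Boros' inequality -/
theorem T_boros (u v : ℝ) (hv : 0 ≤ v) : -4 * v ≤ T (u + v) + T (u - v) - 2 * T u := by
  have h := ((T_tendsto (u + v)).add (T_tendsto (u - v))).sub ((T_tendsto u).const_mul 2)
  exact ge_of_tendsto h (Eventually.of_forall fun n => Tn_boros n u v hv)

theorem T_mid {x y : ℝ} (h : x ≤ y) : T ((x + y) / 2) ≤ (T x + T y) / 2 + (y - x) := by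
  have := T_boros ((x + y) / 2) ((y - x) / 2) (by linarith)
  rw [show (x + y) / 2 + (y - x) / 2 = y by ring,
    show (x + y) / 2 - (y - x) / 2 = x by ring] at this
  linarith

lemma T_int (z : ℤ) : T z = 0 := by
  unfold T
  have : ∀ k : ℕ, 2 * dn (2 ^ k * (z : ℝ)) / 2 ^ k = 0 := by
    intro k
    have e : (2 : ℝ) ^ k * z = ((2 ^ k * z : ℤ) : ℝ) := by push_cast; ring
    rw [e, dn_int]
    simp
  simp [this]

lemma T_rec (x : ℝ) : T x = 2 * dn x + T (2 * x) / 2 := by
  have h1 := (T_tendsto x).comp (tendsto_add_atTop_nat 1)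
  have h2 := ((T_tendsto (2 * x)).div_const 2).const_add (2 * dn x)
  refine tendsto_nhds_unique h1 (h2.congr fun n => ?_)
  exact (Tn_succ n x).symm

end Pool.Agent.Y507.WC
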