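import Pool.Agent.Y507.WC.Boros

/-!
The class of weakened convex functions and upper bounds.
-/

set_option autoImplicit false

namespace Pool.Agent.Y507.WC

open Finset Filter Topology

/-- weakened convexity of order `m` with error constant `c` -/
def Weak (m : ℕ) (c : ℝ) (f : ℝ → ℝ) : Prop :=
  f 0 ≤ 0 ∧ f 1 ≤ 0 ∧ ∀ x : Fin m → ℝ, Monotone x → (∀ i, 0 ≤ x i ∧ x i ≤ 1) →
    ∀ p q : Fin m, (∀ i, p ≤ i ∧ i ≤ q) →
      f ((∑ i, x i) / m) ≤ (∑ i, f (x i)) / m + c * (x q - x p)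

theorem weak_unsorted {m : ℕ} (hm : 0 < m) {f : ℝ → ℝ} (hf : Weak m 1 f) {a b : ℝ} (ha : 0 ≤ a)
    (hb : b ≤ 1) (x : Fin m → ℝ) (hx : ∀ i, a ≤ x i ∧ x i ≤ b) :
    f ((∑ i, x i) / m) ≤ (∑ i, f (x i)) / m + (b - a) := by
  have h := hf.2.2 (x ∘ Tuple.sort x) (Tuple.monotone_sort x)
    (fun i => ⟨ha.trans (hx _).1, (hx _).2.trans hb⟩) ⟨0, hm⟩ ⟨m - 1, by omega⟩ (by
      intro i
      constructor
      · exact Fin.mk_le_of_le_val (Nat.zero_le _)
      · rw [Fin.le_def]
        have := i.2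
        show i.1 ≤ m - 1
        omega)
  have e1 : ∑ i, (x ∘ Tuple.sort x) i = ∑ i, x i := Equiv.sum_comp (Tuple.sort x) x
  have e2 : ∑ i, f ((x ∘ Tuple.sort x) i) = ∑ i, f (x i) :=
    Equiv.sum_comp (Tuple.sort x) (fun i => f (x i))
  rw [e1, e2] at h
  have h1 := (hx (Tuple.sort x ⟨m - 1, by omega⟩)).2
  have h2 := (hx (Tuple.sort x ⟨0, hm⟩)).1
  simp only [Function.comp_apply, one_mul] at h
  linarith

theorem weak_of_unsorted {m : ℕ} {f : ℝ → ℝ} (h0 : f 0 ≤ 0) (h1 : f 1 ≤ 0)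
    (h : ∀ a b : ℝ, 0 ≤ a → b ≤ 1 → ∀ x : Fin m → ℝ, (∀ i, a ≤ x i ∧ x i ≤ b) →
      f ((∑ i, x i) / m) ≤ (∑ i, f (x i)) / m + (b - a)) : Weak m 1 f := by
  refine ⟨h0, h1, fun x hx hxi p q hpq => ?_⟩
  rw [one_mul]
  exact h (x p) (x q) (hxi p).1 (hxi q).2 x fun i => ⟨hx (hpq i).1, hx (hpq i).2⟩

theorem weak_scale {m : ℕ} {c : ℝ} (hc : 0 < c) (f : ℝ → ℝ) :
    Weak m c f ↔ Weak m 1 (fun x => f x / c) := by
  have key : ∀ (A B D : ℝ), A ≤ B / m + c * D ↔ A / c ≤ (B / c) / m + 1 * D := by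
    intro A B D
    have e : (B / c) / m + 1 * D = (B / m + c * D) / c := by
      rw [add_div, mul_div_cancel_left₀ _ hc.ne', one_mul, div_right_comm]
    rw [e, div_le_div_iff_of_pos_right hc]
  have hsum : ∀ x : Fin m → ℝ, ∑ i, f (x i) / c = (∑ i, f (x i)) / c := fun x => by
    rw [Finset.sum_div]
  constructor
  · rintro ⟨h0, h1, h⟩
    refine ⟨div_nonpos_of_nonpos_of_nonneg h0 hc.le, div_nonpos_of_nonpos_of_nonneg h1 hc.le,
      fun x hx hxi p q hpq => ?_⟩
    rw [hsum]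
    exact (key _ _ _).1 (h x hx hxi p q hpq)
  · rintro ⟨h0, h1, h⟩
    have h0' : f 0 / c ≤ 0 := h0
    have h1' : f 1 / c ≤ 0 := h1
    rw [div_le_iff₀ hc, zero_mul] at h0' h1'
    refine ⟨h0', h1', fun x hx hxi p q hpq => ?_⟩
    have := h x hx hxi p q hpq
    simp only at this
    rw [hsum] at this
    exact (key _ _ _).2 this

theorem weak_reflect {m : ℕ} (hm : 0 < m) {f : ℝ → ℝ} (hf : Weak m 1 f) :
    Weak m 1 (fun x => f (1 - x)) := by
  refine weak_of_unsorted (by simpa using hf.2.1) (by simpa using hf.1) ?_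
  intro a b ha hb x hx
  have h := weak_unsorted hm hf (a := 1 - b) (b := 1 - a) (by linarith) (by linarith)
    (fun i => 1 - x i) (fun i => ⟨by linarith [(hx i).2], by linarith [(hx i).1]⟩)
  have hm' : (0 : ℝ) < m := by exact_mod_cast hm
  have e : (∑ i : Fin m, (1 - x i)) / m = 1 - (∑ i, x i) / m := by
    rw [Finset.sum_sub_distrib, Finset.sum_const, Finset.card_univ, Fintype.card_fin,
      nsmul_eq_mul, mul_one, sub_div, div_self hm'.ne']
  rw [e] at h
  linarith

lemma sum_three (j l : ℕ) (A B C : ℝ) :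
    ∑ i : Fin (j + 1 + l), (if (i : ℕ) < j then A else if (i : ℕ) = j then B else C) =
      j * A + B + l * C := by
  rw [Fin.sum_univ_eq_sum_range (fun i => if i < j then A else if i = j then B else C),
    Finset.sum_range_add, Finset.sum_range_succ]
  have h1 : ∑ x ∈ range j, (if x < j then A else if x = j then B else C) = j * A := by
    rw [Finset.sum_congr rfl (g := fun _ => A) (fun x hx => by
      rw [if_pos (Finset.mem_range.1 hx)])]
    simp
  have h2 : ∑ x ∈ range l, (if j + 1 + x < j then A else if j + 1 + x = j then B else C) =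
      l * C := by
    rw [Finset.sum_congr rfl (g := fun _ => C) (fun x _ => by
      rw [if_neg (by omega), if_neg (by omega)])]
    simp
  rw [h1, h2]
  simp

/-- the inequality with `j` points at `b`, one point at `y` and the others at `0` -/
theorem weak_three {m : ℕ} {f : ℝ → ℝ} (hf : Weak m 1 f) {j : ℕ} (hj : j < m) {y b : ℝ}
    (hy : 0 ≤ y) (hyb : y ≤ b) (hb : b ≤ 1) :
    f ((j * b + y) / m) ≤ (j * f b + f y) / m + b := by
  obtain ⟨l, rfl⟩ : ∃ l, m = j + 1 + l := ⟨m - (j + 1), by omega⟩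
  have h := weak_unsorted (by omega) hf (a := 0) (b := b) le_rfl hb
    (fun i : Fin (j + 1 + l) => if (i : ℕ) < j then b else if (i : ℕ) = j then y else 0) (by
      intro i
      split_ifs
      · exact ⟨hy.trans hyb, le_rfl⟩
      · exact ⟨hy, hyb⟩
      · exact ⟨le_rfl, hy.trans hyb⟩)
  have e : ∀ i : Fin (j + 1 + l), f (if (i : ℕ) < j then b else if (i : ℕ) = j then y else 0) =
      if (i : ℕ) < j then f b else if (i : ℕ) = j then f y else f 0 := by
    intro i
    split_ifs <;> rfl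
  simp only [e] at h
  rw [sum_three, sum_three, mul_zero, add_zero, sub_zero] at h
  refine h.trans ?_
  have h0 : (l : ℝ) * f 0 ≤ 0 := mul_nonpos_of_nonneg_of_nonpos (by positivity) hf.1
  have : (j * f b + f y + l * f 0) / ((j + 1 + l : ℕ) : ℝ) ≤
      (j * f b + f y) / ((j + 1 + l : ℕ) : ℝ) :=
    div_le_div_of_nonneg_right (by linarith) (Nat.cast_nonneg _)
  linarith

lemma split_point {m : ℕ} (hm : 0 < m) {x b : ℝ} (hx : 0 ≤ x) (hxb : x < b) :
    ∃ (j : ℕ) (y : ℝ), j < m ∧ 0 ≤ y ∧ y ≤ b ∧ j * b + y = m * x ∧ (j : ℝ) / m ≤ x / b := by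
  have hb : 0 < b := lt_of_le_of_lt hx hxb
  have hm' : (0 : ℝ) < m := by exact_mod_cast hm
  have h0 : 0 ≤ m * x / b := by positivity
  refine ⟨⌊m * x / b⌋₊, m * x - ⌊m * x / b⌋₊ * b, ?_, ?_, ?_, by ring, ?_⟩
  · have : m * x / b < m := by
      rw [div_lt_iff₀ hb]
      exact mul_lt_mul_of_pos_left hxb hm'
    exact (Nat.floor_lt h0).2 this
  · have := Nat.floor_le h0
    rw [le_div_iff₀ hb] at this
    linarith
  · have := (Nat.lt_floor_add_one (m * x / b)).le
    rw [div_le_iff₀ hb] at this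
    linarith
  · have := Nat.floor_le h0
    rw [div_le_iff₀ hm']
    calc ((⌊m * x / b⌋₊ : ℕ) : ℝ) ≤ m * x / b := this
      _ = x / b * m := by ring

/-- upper bound 2 -/
theorem weak_le_two {m : ℕ} (hm : 2 ≤ m) {f : ℝ → ℝ} (hf : Weak m 1 f)
    (hS : ∃ S, ∀ t, 0 ≤ t → t ≤ 1 → f t ≤ S) {x : ℝ} (hx0 : 0 ≤ x) (hx1 : x ≤ 1) : f x ≤ 2 := by
  obtain ⟨S, hS⟩ := hS
  have hm' : (2 : ℝ) ≤ m := by exact_mod_cast hm
  have key : ∀ n : ℕ, ∀ t, 0 ≤ t → t ≤ 1 → f t ≤ 2 + |S| / 2 ^ n := by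
    intro n
    induction n with
    | zero =>
      intro t h0 h1
      have := hS t h0 h1
      have := le_abs_self S
      rw [pow_zero, div_one]
      linarith
    | succ n ih =>
      intro t h0 h1
      have hpos : 0 ≤ |S| / 2 ^ (n + 1) := by positivity
      rcases h1.lt_or_eq with h1 | h1
      · obtain ⟨j, y, hj, hy0, hy1, he, -⟩ := split_point (m := m) (by omega) h0 h1
        have h := weak_three hf hj hy0 hy1 le_rfl
        rw [he, mul_div_cancel_left₀ _ (by positivity : (m : ℝ) ≠ 0)] at h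
        have h2 := ih y hy0 hy1
        have h3 : (j : ℝ) * f 1 ≤ 0 := mul_nonpos_of_nonneg_of_nonpos (by positivity) hf.2.1
        have hn : 0 ≤ |S| / 2 ^ n := by positivity
        have h4 : (j * f 1 + f y) / m ≤ (2 + |S| / 2 ^ n) / 2 := by
          rw [div_le_div_iff₀ (by linarith) (by norm_num)]
          have : (2 + |S| / 2 ^ n) * 2 ≤ (2 + |S| / 2 ^ n) * m :=
            mul_le_mul_of_nonneg_left hm' (by linarith)
          linarith
        have h5 : |S| / 2 ^ (n + 1) = |S| / 2 ^ n / 2 := by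
          rw [pow_succ, div_div]
        rw [h5]
        linarith
      · rw [h1]
        linarith [hf.2.1]
  have hlim : Tendsto (fun n : ℕ => 2 + |S| / 2 ^ n) atTop (𝓝 (2 + 0)) := by
    refine Tendsto.const_add _ ?_
    have h1 : Tendsto (fun n : ℕ => |S| * (1 / 2 : ℝ) ^ n) atTop (𝓝 (|S| * 0)) :=
      (tendsto_pow_atTop_nhds_zero_of_lt_one (by norm_num) (by norm_num)).const_mul _
    rw [mul_zero] at h1
    refine h1.congr fun n => ?_
    rw [one_div_pow]
    ring
  rw [add_zero] at hlim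
  exact ge_of_tendsto hlim (Eventually.of_forall fun n => key n x hx0 hx1)

/-- one step -/
theorem weak_step {m : ℕ} (hm : 2 ≤ m) {f : ℝ → ℝ} (hf : Weak m 1 f)
    (hS : ∀ t, 0 ≤ t → t ≤ 1 → f t ≤ 2) {x b U : ℝ} (hx : 0 ≤ x) (hxb : x ≤ b) (hb0 : 0 < b)
    (hb1 : b ≤ 1) (hU : 0 ≤ U) (hfb : f b ≤ U) : f x ≤ x / b * U + b + 2 / m := by
  have hm' : (2 : ℝ) ≤ m := by exact_mod_cast hm
  rcases hxb.lt_or_eq with h | h
  · obtain ⟨j, y, hj, hy0, hyb, he, hjm⟩ := split_point (m := m) (by omega) hx h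
    have h1 := weak_three hf hj hy0 hyb hb1
    rw [he, mul_div_cancel_left₀ _ (by positivity : (m : ℝ) ≠ 0)] at h1
    have h2 := hS y hy0 (hyb.trans hb1)
    have h3 : (j * f b + f y) / m ≤ j / m * U + 2 / m := by
      rw [add_div, mul_div_right_comm]
      have : (j : ℝ) / m * f b ≤ j / m * U := mul_le_mul_of_nonneg_left hfb (by positivity)
      have : f y / m ≤ 2 / m := by gcongr
      linarith
    have h4 : (j : ℝ) / m * U ≤ x / b * U := mul_le_mul_of_nonneg_right hjm hU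
    linarith
  · rw [h, div_self hb0.ne', one_mul]
    have : (0 : ℝ) ≤ 2 / m := by positivity
    linarith

/-- the chain -/
theorem weak_chain {m : ℕ} (hm : 2 ≤ m) {f : ℝ → ℝ} (hf : Weak m 1 f)
    (hS : ∀ t, 0 ≤ t → t ≤ 1 → f t ≤ 2) {s : ℝ} (hs0 : 0 < s) (hs1 : s ≤ 1 / 2) (k : ℕ) :
    f (s ^ (k + 1)) ≤ (k + 1) * s ^ k + 4 / m := by
  have hm' : (2 : ℝ) ≤ m := by exact_mod_cast hm
  have hm0 : (0 : ℝ) < m := by linarith
  induction k with
  | zero =>
    have h := weak_step hm hf hS (x := s) (b := 1) (U := 0) hs0.le (by linarith) one_pos le_rfl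
      le_rfl hf.2.1
    have : (2 : ℝ) / m ≤ 4 / m := by gcongr; norm_num
    simp only [zero_add, pow_one, Nat.cast_zero, pow_zero, mul_one]
    linarith
  | succ k ih =>
    have h := weak_step hm hf hS (x := s ^ (k + 1 + 1)) (b := s ^ (k + 1))
      (U := (k + 1) * s ^ k + 4 / m) (by positivity)
      (pow_le_pow_of_le_one hs0.le (by linarith) (by omega)) (by positivity)
      (pow_le_one₀ hs0.le (by linarith)) (by positivity) ih
    have e : s ^ (k + 1 + 1) / s ^ (k + 1) = s := by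
      rw [pow_succ s (k + 1)]
      field_simp
    rw [e] at h
    have h2 : s * (4 / m) ≤ 2 / m := by
      have : s * (4 / m) ≤ 1 / 2 * (4 / m) := mul_le_mul_of_nonneg_right hs1 (by positivity)
      calc s * (4 / m) ≤ 1 / 2 * (4 / m) := this
        _ = 2 / m := by ring
    have e2 : (2 : ℝ) / m + 2 / m = 4 / m := by ring
    push_cast
    calc f (s ^ (k + 1 + 1)) ≤ s * ((k + 1) * s ^ k + 4 / m) + s ^ (k + 1) + 2 / m := h
      _ = (k + 1 + 1) * s ^ (k + 1) + (s * (4 / m) + 2 / m) := by ring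
      _ ≤ (k + 1 + 1) * s ^ (k + 1) + (2 / m + 2 / m) := by linarith
      _ = _ := by rw [e2]

/-- the upper bound with real exponents -/
theorem weak_upper {m : ℕ} (hm : 2 ≤ m) {f : ℝ → ℝ} (hf : Weak m 1 f)
    (hS : ∀ t, 0 ≤ t → t ≤ 1 → f t ≤ 2) {x : ℝ} (hx0 : 0 < x) (hx1 : x ≤ 1) (k : ℕ) :
    f x ≤ (k + 1) * x ^ ((k : ℝ) / (k + 1)) + 4 / m := by
  have hm' : (2 : ℝ) ≤ m := by exact_mod_cast hm
  induction k with
  | zero =>
    have h := weak_step hm hf hS (x := x) (b := 1) (U := 0) hx0.le hx1 one_pos le_rfl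
      le_rfl hf.2.1
    have : (2 : ℝ) / m ≤ 4 / m := by gcongr; norm_num
    simp only [Nat.cast_zero, zero_add, zero_div, Real.rpow_zero]
    linarith
  | succ k ih =>
    -- `t` with `x = t ^ ((k+1)(k+2))`
    set t : ℝ := x ^ (1 / (((k + 1) * (k + 2) : ℕ) : ℝ)) with ht
    have ht0 : 0 < t := Real.rpow_pos_of_pos hx0 _
    have hN : (((k + 1) * (k + 2) : ℕ) : ℝ) ≠ 0 := by positivity
    have hpow : ∀ n : ℕ, t ^ n = x ^ ((n : ℝ) / (((k + 1) * (k + 2) : ℕ) : ℝ)) := by
      intro n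
      rw [ht, ← Real.rpow_natCast, ← Real.rpow_mul hx0.le]
      congr 1
      ring
    have hx : x = (t ^ (k + 1)) ^ (k + 2) := by
      rw [← pow_mul, hpow, div_self hN, Real.rpow_one]
    have e1 : x ^ ((k : ℝ) / (k + 1)) = t ^ (k * (k + 2)) := by
      rw [hpow]
      congr 1
      push_cast
      field_simp
    have e2 : x ^ (((k + 1 : ℕ) : ℝ) / (((k + 1 : ℕ) : ℝ) + 1)) = (t ^ (k + 1)) ^ (k + 1) := by
      rw [← pow_mul, hpow]
      congr 1
      push_cast
      field_simp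
      ring
    rw [e2]
    rcases le_or_gt (t ^ (k + 1)) (1 / 2) with hs | hs
    · have h := weak_chain hm hf hS (s := t ^ (k + 1)) (by positivity) hs (k + 1)
      rw [show k + 1 + 1 = k + 2 by ring, ← hx] at h
      exact h
    · rw [e1] at ih
      have ht1 : ((k : ℝ) + 1) ≤ (k + 2) * t := by
        by_contra hcon
        push Not at hcon
        have h1 : t < (k + 1) / (k + 2) := by
          rw [lt_div_iff₀ (by positivity)]
          linarith
        have h2 : t ^ (k + 1) < ((k + 1) / (k + 2) : ℝ) ^ (k + 1) :=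
          pow_lt_pow_left₀ h1 ht0.le (by omega)
        have h3 : (2 : ℝ) ≤ ((k + 2) / (k + 1)) ^ (k + 1) := by
          have hb := one_add_mul_le_pow (a := (1 : ℝ) / (k + 1)) (by
            have : (0 : ℝ) ≤ 1 / (k + 1) := by positivity
            linarith) (k + 1)
          have e : (1 : ℝ) + 1 / (k + 1) = (k + 2) / (k + 1) := by
            field_simp
            ring
          rw [e] at hb
          have e' : 1 + ((k + 1 : ℕ) : ℝ) * (1 / (k + 1)) = 2 := by
            push_cast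
            field_simp
            norm_num
          rw [e'] at hb
          exact hb
        have h4 : ((k + 1) / (k + 2) : ℝ) ^ (k + 1) * ((k + 2) / (k + 1)) ^ (k + 1) = 1 := by
          rw [← mul_pow]
          have : ((k + 1) / (k + 2) : ℝ) * ((k + 2) / (k + 1)) = 1 := by field_simp
          rw [this, one_pow]
        have h5 : (0 : ℝ) < ((k + 1) / (k + 2)) ^ (k + 1) := by positivity
        nlinarith
      have hle : ((k : ℝ) + 1) * t ^ (k * (k + 2)) ≤ (k + 2) * (t ^ (k + 1)) ^ (k + 1) := by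
        have e3 : (t ^ (k + 1)) ^ (k + 1) = t ^ (k * (k + 2)) * t := by
          rw [← pow_mul, ← pow_succ]
          congr 1
          ring
        rw [e3]
        have : 0 ≤ t ^ (k * (k + 2)) := by positivity
        nlinarith
      push_cast
      linarith

end Pool.Agent.Y507.WC
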