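import Pool.Agent.Y507.WC.Fin

/-!
Exact values of the extremal functions at powers.
-/

set_option autoImplicit false

namespace Pool.Agent.Y507.WC

open Finset Filter Topology Set

theorem weak_exact {m : ℕ} (hm : 2 ≤ m) {f : ℝ → ℝ} (hf : Weak m 1 f) {i : ℕ} (hi : i ≤ m)
    (k : ℕ) : f (((i : ℝ) / m) ^ (k + 1)) ≤ (k + 1) * ((i : ℝ) / m) ^ k := by
  have hm' : (2 : ℝ) ≤ m := by exact_mod_cast hm
  rcases Nat.eq_zero_or_pos i with h0 | h0
  · subst h0
    have e : ((0 : ℕ) : ℝ) / m = 0 := by simp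
    rw [e, zero_pow (by omega)]
    exact hf.1.trans (by positivity)
  obtain ⟨j, rfl⟩ : ∃ j, i = j + 1 := ⟨i - 1, by omega⟩
  have hs0 : (0 : ℝ) ≤ ((j + 1 : ℕ) : ℝ) / m := by positivity
  have hs1 : ((j + 1 : ℕ) : ℝ) / m ≤ 1 := by
    rw [div_le_one (by linarith)]
    exact_mod_cast hi
  have step : ∀ b : ℝ, 0 ≤ b → b ≤ 1 →
      f (((j + 1 : ℕ) : ℝ) / m * b) ≤ ((j + 1 : ℕ) : ℝ) / m * f b + b := by
    intro b h0 h1
    have h := weak_three hf (j := j) (y := b) (b := b) (by omega) h0 le_rfl h1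
    have e1 : (j * b + b) / (m : ℝ) = ((j + 1 : ℕ) : ℝ) / m * b := by
      push_cast
      ring
    have e2 : (j * f b + f b) / (m : ℝ) = ((j + 1 : ℕ) : ℝ) / m * f b := by
      push_cast
      ring
    rw [e1, e2] at h
    exact h
  induction k with
  | zero =>
    have h := step 1 zero_le_one le_rfl
    have h2 : ((j + 1 : ℕ) : ℝ) / m * f 1 ≤ 0 :=
      mul_nonpos_of_nonneg_of_nonpos hs0 hf.2.1
    rw [mul_one] at h
    simp only [zero_add, pow_one, pow_zero, mul_one, Nat.cast_zero]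
    linarith
  | succ k ih =>
    have h := step ((((j + 1 : ℕ) : ℝ) / m) ^ (k + 1)) (by positivity) (pow_le_one₀ hs0 hs1)
    rw [← pow_succ'] at h
    have h2 := mul_le_mul_of_nonneg_left ih hs0
    push_cast at h h2 ⊢
    calc f ((((j : ℝ) + 1) / m) ^ (k + 1 + 1))
        ≤ ((j : ℝ) + 1) / m * f ((((j : ℝ) + 1) / m) ^ (k + 1)) + (((j : ℝ) + 1) / m) ^ (k + 1) := h
      _ ≤ ((j : ℝ) + 1) / m * ((k + 1) * (((j : ℝ) + 1) / m) ^ k) + (((j : ℝ) + 1) / m) ^ (k + 1) := by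
          linarith
      _ = _ := by ring

theorem FF_exact {m : ℕ} (hm : 2 ≤ m) {c : ℝ} (hc : 0 < c) {i : ℕ} (hi : i ≤ m) (k : ℕ) :
    FF m c (((i : ℝ) / m) ^ (k + 1)) ≤ c * ((k + 1) * ((i : ℝ) / m) ^ k) := by
  have hm' : (2 : ℝ) ≤ m := by exact_mod_cast hm
  have hs0 : (0 : ℝ) ≤ (i : ℝ) / m := by positivity
  have hs1 : (i : ℝ) / m ≤ 1 := by
    rw [div_le_one (by linarith)]
    exact_mod_cast hi
  obtain ⟨f, hf, -, he⟩ := (FF_greatest hm hc (x := ((i : ℝ) / m) ^ (k + 1)) (by positivity)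
    (pow_le_one₀ hs0 hs1)).1
  rw [← he]
  have := weak_exact hm ((weak_scale hc f).1 hf) hi k
  rw [div_le_iff₀ hc] at this
  linarith

/-- the infimum at squares -/
theorem hh_sq {s : ℝ} (h0 : 8 / 27 ≤ s) (h1 : s ≤ 1 / 2) : 2 * s ≤ hh (s ^ 2) := by
  have hs : 0 < s := by linarith
  refine le_hh fun k => ?_
  have hnn : 0 ≤ ((k : ℝ) + 1) * (s ^ 2) ^ ((k : ℝ) / ((k : ℝ) + 1)) := by
    have := Real.rpow_nonneg (sq_nonneg s) ((k : ℝ) / ((k : ℝ) + 1))
    positivity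
  by_contra hcon
  push Not at hcon
  have h2 := pow_lt_pow_left₀ hcon hnn (n := k + 1) (by omega)
  rw [pow_hh (sq_nonneg s)] at h2
  rcases Nat.lt_or_ge k 2 with hk | hk
  · interval_cases k
    · have h5 : (1 : ℝ) < 2 * s := by simpa using h2
      exact absurd h5 (not_lt.2 (by linarith only [h1]))
    · have h5 : (2 : ℝ) ^ 2 * s ^ 2 < 2 ^ 2 * s ^ 2 := by
        have e : (((1 : ℕ) : ℝ) + 1) ^ (1 + 1) * (s ^ 2) ^ 1 = 2 ^ 2 * s ^ 2 := by norm_num
        rw [e, mul_pow] at h2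
        exact h2
      exact absurd h5 (lt_irrefl _)
  · obtain ⟨l, rfl⟩ : ∃ l, k = l + 2 := ⟨k - 2, by omega⟩
    have h27 : (27 / 8 : ℝ) ^ (l + 1) * 2 ^ (l + 3) ≤ ((l : ℝ) + 3) ^ (l + 3) := by
      rcases Nat.lt_or_ge l 4 with hl | hl
      · interval_cases l <;> norm_num
      · have h' : (4 : ℝ) ≤ l := by exact_mod_cast hl
        calc (27 / 8 : ℝ) ^ (l + 1) * 2 ^ (l + 3) ≤ (27 / 8) ^ (l + 3) * 2 ^ (l + 3) := by
              gcongr
              · norm_num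
              · omega
          _ = (27 / 4) ^ (l + 3) := by
              rw [← mul_pow]
              norm_num
          _ ≤ _ := pow_le_pow_left₀ (by norm_num) (by linarith) _
    have h3 : 1 ≤ (27 / 8 : ℝ) ^ (l + 1) * s ^ (l + 1) := by
      rw [← mul_pow]
      exact one_le_pow₀ (by linarith)
    have h4 : (2 * s) ^ (l + 2 + 1) ≤ ((l : ℝ) + 3) ^ (l + 3) * (s ^ 2) ^ (l + 2) := by
      have e1 : (2 * s) ^ (l + 2 + 1) = 2 ^ (l + 3) * s ^ (l + 3) := by
        rw [mul_pow]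
      have e2 : (s ^ 2) ^ (l + 2) = s ^ (l + 3) * s ^ (l + 1) := by
        rw [← pow_mul, ← pow_add]
        congr 1
        ring
      rw [e1, e2]
      have hp : 0 < s ^ (l + 3) := by positivity
      have hq : 0 < s ^ (l + 1) := by positivity
      calc (2 : ℝ) ^ (l + 3) * s ^ (l + 3)
          ≤ 2 ^ (l + 3) * s ^ (l + 3) * ((27 / 8 : ℝ) ^ (l + 1) * s ^ (l + 1)) :=
            le_mul_of_one_le_right (by positivity) h3
        _ = (27 / 8 : ℝ) ^ (l + 1) * 2 ^ (l + 3) * (s ^ (l + 3) * s ^ (l + 1)) := by ring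
        _ ≤ _ := mul_le_mul_of_nonneg_right h27 (by positivity)
    have e3 : (((l + 2 : ℕ) : ℝ) + 1) = l + 3 := by push_cast; ring
    rw [e3] at h2
    exact absurd h4 (not_le.2 h2)

theorem FF_sq {m : ℕ} (hm : 2 ≤ m) {c : ℝ} (hc : 0 < c) {i : ℕ} (h0 : 8 / 27 ≤ (i : ℝ) / m)
    (h1 : (i : ℝ) / m ≤ 1 / 2) : FF m c (((i : ℝ) / m) ^ 2) = 2 * c * ((i : ℝ) / m) := by
  have hm' : (2 : ℝ) ≤ m := by exact_mod_cast hm
  have hi : i ≤ m := by
    rw [div_le_iff₀ (by linarith)] at h1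
    have : (i : ℝ) ≤ m := by linarith
    exact_mod_cast this
  apply le_antisymm
  · have := FF_exact hm hc hi 1
    norm_num at this
    linarith
  · have hs2 : ((i : ℝ) / m) ^ 2 ≤ 1 / 4 := by nlinarith
    have h := (FF_bounds hm hc (x := ((i : ℝ) / m) ^ 2) (by positivity) (by linarith)).1
    have hg : 2 * ((i : ℝ) / m) ≤ gg (((i : ℝ) / m) ^ 2) := by
      refine le_min (hh_sq h0 h1) ?_
      have := one_le_hh (x := 1 - ((i : ℝ) / m) ^ 2) (by linarith)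
      linarith
    have := mul_le_mul_of_nonneg_left hg hc.le
    linarith

theorem FF_mid {m : ℕ} (hm : 2 ≤ m) {c : ℝ} (hc : 0 < c) {i : ℕ} (h0 : 1 / 4 ≤ (i : ℝ) / m)
    (h1 : (i : ℝ) / m ≤ 3 / 4) : FF m c ((i : ℝ) / m) = c := by
  have hm' : (2 : ℝ) ≤ m := by exact_mod_cast hm
  have hi : i ≤ m := by
    rw [div_le_iff₀ (by linarith)] at h1
    have : (i : ℝ) ≤ m := by linarith
    exact_mod_cast this
  apply le_antisymm
  · have := FF_exact hm hc hi 0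
    simpa using this
  · have h := (FF_bounds hm hc (x := (i : ℝ) / m) (by linarith) (by linarith)).1
    rwa [gg_mid h0 h1, mul_one] at h

end Pool.Agent.Y507.WC
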