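import Pool.Agent.Y507.WC.Low

/-!
The extremal functions.
-/

set_option autoImplicit false

namespace Pool.Agent.Y507.WC

open Finset Filter Topology Set

/-- two point inequality -/
def Mid (f : ℝ → ℝ) : Prop :=
  f 0 ≤ 0 ∧ f 1 ≤ 0 ∧ ∀ x y : ℝ, 0 ≤ x → x ≤ y → y ≤ 1 → f ((x + y) / 2) ≤ (f x + f y) / 2 + (y - x)

theorem mid_of_weak_two {f : ℝ → ℝ} (hf : Weak 2 1 f) : Mid f := by
  refine ⟨hf.1, hf.2.1, fun x y hx hxy hy => ?_⟩
  have h := weak_unsorted (by norm_num) hf (a := x) (b := y) hx hy ![x, y] (by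
    intro i
    fin_cases i
    · exact ⟨le_rfl, hxy⟩
    · exact ⟨hxy, le_rfl⟩)
  simpa [Fin.sum_univ_two] using h

theorem mid_of_weak_four {f : ℝ → ℝ} (hf : Weak 4 1 f) : Mid f := by
  refine ⟨hf.1, hf.2.1, fun x y hx hxy hy => ?_⟩
  have h := weak_unsorted (by norm_num) hf (a := x) (b := y) hx hy ![x, x, y, y] (by
    intro i
    fin_cases i
    · exact ⟨le_rfl, hxy⟩
    · exact ⟨le_rfl, hxy⟩
    · exact ⟨hxy, le_rfl⟩
    · exact ⟨hxy, le_rfl⟩)
  simp only [Fin.sum_univ_four, Matrix.cons_val_zero, Matrix.cons_val_one, Matrix.cons_val] at h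
  rw [show (x + x + y + y) / ((4 : ℕ) : ℝ) = (x + y) / 2 by push_cast; ring,
    show (f x + f x + f y + f y) / ((4 : ℕ) : ℝ) = (f x + f y) / 2 by push_cast; ring] at h
  exact h

/-- one binary step -/
noncomputable def bstep (t : ℝ) : ℝ := if t ≤ 1 / 2 then 2 * t else 2 * t - 1

lemma bstep_mem {t : ℝ} (h0 : 0 ≤ t) (h1 : t ≤ 1) : 0 ≤ bstep t ∧ bstep t ≤ 1 := by
  unfold bstep
  split_ifs with h
  · exact ⟨by linarith, by linarith⟩
  · push Not at h
    exact ⟨by linarith, by linarith⟩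

/-- upper bound on an invariant set -/
theorem mid_upper {f : ℝ → ℝ} (hf : Mid f) {O : Set ℝ} (hO : ∀ t ∈ O, 0 ≤ t ∧ t ≤ 1)
    (hst : ∀ t ∈ O, bstep t ∈ O) {S : ℝ} (hS : ∀ t ∈ O, f t ≤ S) : ∀ t ∈ O, f t ≤ T t := by
  have key : ∀ n : ℕ, ∀ t ∈ O, f t ≤ Tn n t + |S| / 2 ^ n := by
    intro n
    induction n with
    | zero =>
      intro t ht
      rw [Tn_zero, pow_zero, div_one, zero_add]
      exact (hS t ht).trans (le_abs_self S)
    | succ n ih =>
      intro t ht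
      obtain ⟨h0, h1⟩ := hO t ht
      have h2 := ih _ (hst t ht)
      have h5 : |S| / 2 ^ (n + 1) = |S| / 2 ^ n / 2 := by
        rw [pow_succ, div_div]
      rw [Tn_succ, h5]
      unfold bstep at h2
      split_ifs at h2 with h
      · have h3 := hf.2.2 0 (2 * t) le_rfl (by linarith) (by linarith)
        rw [show (0 + 2 * t) / 2 = t by ring, sub_zero] at h3
        rw [dn_eq_of_le_half h0 h]
        linarith [hf.1]
      · push Not at h
        have h3 := hf.2.2 (2 * t - 1) 1 (by linarith) (by linarith) le_rfl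
        rw [show (2 * t - 1 + 1) / 2 = t by ring] at h3
        have h4 : Tn n (2 * t - 1) = Tn n (2 * t) := by
          have := Tn_add_int n (2 * t) (-1)
          rw [← this]
          congr 1
          push_cast
          ring
        rw [h4] at h2
        rw [dn_eq_of_half_le h.le h1]
        linarith [hf.2.1]
  intro t ht
  have hlim : Tendsto (fun n : ℕ => Tn n t + |S| / 2 ^ n) atTop (𝓝 (T t + 0)) := by
    refine (T_tendsto t).add ?_
    have h1 : Tendsto (fun n : ℕ => |S| * (1 / 2 : ℝ) ^ n) atTop (𝓝 (|S| * 0)) :=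
      (tendsto_pow_atTop_nhds_zero_of_lt_one (by norm_num) (by norm_num)).const_mul _
    rw [mul_zero] at h1
    refine h1.congr fun n => ?_
    rw [one_div_pow]
    ring
  rw [add_zero] at hlim
  exact ge_of_tendsto hlim (Eventually.of_forall fun n => key n t ht)

theorem mid_upper_bdd {f : ℝ → ℝ} (hf : Mid f) (hS : ∃ S, ∀ t, 0 ≤ t → t ≤ 1 → f t ≤ S) {t : ℝ}
    (h0 : 0 ≤ t) (h1 : t ≤ 1) : f t ≤ T t := by
  obtain ⟨S, hS⟩ := hS
  exact mid_upper hf (O := Icc 0 1) (fun t ht => ht) (fun t ht => bstep_mem ht.1 ht.2)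
    (fun t ht => hS t ht.1 ht.2) t ⟨h0, h1⟩

theorem mid_upper_rat {f : ℝ → ℝ} (hf : Mid f) {x : ℚ} (h0 : 0 ≤ (x : ℝ)) (h1 : (x : ℝ) ≤ 1) :
    f x ≤ T x := by
  set O : Set ℝ := (fun j : ℕ => (j : ℝ) / x.den) '' (Set.Iic x.den) with hO
  have hfin : O.Finite := (Set.finite_Iic _).image _
  have hq : (0 : ℝ) < x.den := by exact_mod_cast x.den_pos
  have hbd : BddAbove (f '' O) := (hfin.image f).bddAbove
  obtain ⟨S, hS⟩ := hbd
  refine mid_upper hf (O := O) ?_ ?_ (S := S) (fun t ht => hS ⟨t, ht, rfl⟩) x ?_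
  · rintro _ ⟨j, hj, rfl⟩
    have hj' : (j : ℝ) ≤ x.den := by exact_mod_cast hj
    refine ⟨div_nonneg (by positivity) hq.le, ?_⟩
    show (j : ℝ) / x.den ≤ 1
    rw [div_le_one hq]
    exact hj'
  · rintro _ ⟨j, hj, rfl⟩
    have hj0 : j ≤ x.den := hj
    unfold bstep
    split_ifs with h
    · refine ⟨2 * j, ?_, ?_⟩
      · rw [div_le_div_iff₀ hq (by norm_num)] at h
        have h' : j * 2 ≤ 1 * x.den := by exact_mod_cast h
        show 2 * j ≤ x.den
        omega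
      · push_cast
        ring
    · push Not at h
      rw [div_lt_div_iff₀ (by norm_num) hq] at h
      have h' : 1 * x.den < j * 2 := by exact_mod_cast h
      refine ⟨2 * j - x.den, ?_, ?_⟩
      · show 2 * j - x.den ≤ x.den
        omega
      · show ((2 * j - x.den : ℕ) : ℝ) / x.den = 2 * ((j : ℝ) / x.den) - 1
        rw [Nat.cast_sub (by omega)]
        push_cast
        field_simp
  · have hnn : 0 ≤ x.num := by
      have : (0 : ℚ) ≤ x := by exact_mod_cast h0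
      exact Rat.num_nonneg.2 this
    have hx : (x : ℝ) = (x.num.toNat : ℝ) / x.den := by
      have e : ((x.num.toNat : ℕ) : ℤ) = x.num := Int.toNat_of_nonneg hnn
      have e2 : ((x.num.toNat : ℕ) : ℝ) = (x.num : ℝ) := by exact_mod_cast e
      rw [e2]
      exact_mod_cast (Rat.num_div_den x).symm
    refine ⟨x.num.toNat, ?_, hx.symm⟩
    show x.num.toNat ≤ x.den
    rw [hx, div_le_one hq] at h1
    exact_mod_cast h1

theorem T_weak_two : Weak 2 1 T := by
  refine ⟨(by simpa using (T_int 0).le), (by simpa using (T_int 1).le), ?_⟩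
  intro x hx hxi p q hpq
  have h01 : x 0 ≤ x 1 := hx (by decide)
  have hp : p = 0 := by
    have := (hpq 0).1
    exact le_antisymm this (Fin.zero_le _)
  have hq : q = 1 := by
    have := (hpq 1).2
    apply le_antisymm _ this
    exact Fin.le_last q
  rw [hp, hq]
  have := T_mid h01
  simpa [Fin.sum_univ_two] using this

theorem T_weak_four : Weak 4 1 T := by
  refine ⟨(by simpa using (T_int 0).le), (by simpa using (T_int 1).le), ?_⟩
  intro x hx hxi p q hpq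
  have h01 : x 0 ≤ x 1 := hx (by decide)
  have h12 : x 1 ≤ x 2 := hx (by decide)
  have h23 : x 2 ≤ x 3 := hx (by decide)
  have hp : p = 0 := by
    have := (hpq 0).1
    exact le_antisymm this (Fin.zero_le _)
  have hq : q = 3 := by
    have := (hpq 3).2
    apply le_antisymm _ this
    exact Fin.le_last q
  rw [hp, hq]
  have a1 := T_mid h01
  have a2 := T_mid h23
  have a3 := T_mid (x := (x 0 + x 1) / 2) (y := (x 2 + x 3) / 2) (by linarith)
  rw [Fin.sum_univ_four, Fin.sum_univ_four]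
  rw [show (x 0 + x 1 + x 2 + x 3) / ((4 : ℕ) : ℝ) = ((x 0 + x 1) / 2 + (x 2 + x 3) / 2) / 2 by
    push_cast; ring]
  have e : (T (x 0) + T (x 1) + T (x 2) + T (x 3)) / ((4 : ℕ) : ℝ) =
      (T (x 0) + T (x 1) + T (x 2) + T (x 3)) / 4 := by push_cast; ring
  rw [e]
  linarith

/-- the identity between the two kernels -/
lemma kernel (y : ℝ) : 2 * dn y + dn (2 * y) = 4 * min (dn y) (1 / 4) := by
  set u := Int.fract y with hu
  have h0 := Int.fract_nonneg y
  have h1 := Int.fract_lt_one y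
  have e : y = u + ⌊y⌋ := by rw [hu]; exact (Int.fract_add_floor y).symm
  have e1 : dn y = dn u := by
    conv_lhs => rw [e]
    exact dn_add_int _ _
  have e2 : dn (2 * y) = dn (2 * u) := by
    have : 2 * y = 2 * u + ((2 * ⌊y⌋ : ℤ) : ℝ) := by
      push_cast
      linarith
    rw [this, dn_add_int]
  rw [e1, e2]
  rcases le_total u (1 / 2) with h | h
  · rw [dn_eq_of_le_half h0 h]
    rcases le_total u (1 / 4) with h' | h'
    · rw [dn_eq_of_le_half (by linarith) (by linarith), min_eq_left h']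
      ring
    · rw [dn_eq_of_half_le (by linarith) (by linarith), min_eq_right h']
      ring
  · rw [dn_eq_of_half_le h h1.le]
    have e3 : dn (2 * u) = dn (2 * u - 1) := by
      have := dn_add_int (2 * u) (-1)
      rw [← this]
      congr 1
      push_cast
      ring
    rw [e3]
    rcases le_total u (3 / 4) with h' | h'
    · rw [dn_eq_of_le_half (by linarith) (by linarith), min_eq_right (by linarith)]
      ring
    · rw [dn_eq_of_half_le (by linarith) (by linarith), min_eq_left (by linarith)]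
      ring

/-- the series -/
noncomputable def SS (m : ℕ) (x : ℝ) : ℝ := ∑' k : ℕ, min (dn ((m : ℝ) ^ k * x)) (1 / m) / (m : ℝ) ^ (k + 1)

lemma SS_term_nonneg (m : ℕ) (x : ℝ) (k : ℕ) :
    0 ≤ min (dn ((m : ℝ) ^ k * x)) (1 / m) / (m : ℝ) ^ (k + 1) := by
  have h1 : 0 ≤ min (dn ((m : ℝ) ^ k * x)) (1 / m) := le_min (dn_nonneg _) (by positivity)
  positivity

lemma SS_summable {m : ℕ} (hm : 2 ≤ m) (x : ℝ) :
    Summable fun k : ℕ => min (dn ((m : ℝ) ^ k * x)) (1 / m) / (m : ℝ) ^ (k + 1) := by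
  have hm' : (2 : ℝ) ≤ m := by exact_mod_cast hm
  refine Summable.of_nonneg_of_le (SS_term_nonneg m x) (fun k => ?_) summable_geometric_two
  have h1 : min (dn ((m : ℝ) ^ k * x)) (1 / m) ≤ 1 :=
    (min_le_left _ _).trans ((dn_le_half _).trans (by norm_num))
  have h2 : (2 : ℝ) ^ k ≤ (m : ℝ) ^ (k + 1) :=
    calc (2 : ℝ) ^ k ≤ m ^ k := pow_le_pow_left₀ (by norm_num) hm' k
      _ ≤ m ^ (k + 1) := pow_le_pow_right₀ (by linarith) (by omega)
  rw [one_div_pow]
  have h3 : (0 : ℝ) < 2 ^ k := by positivity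
  calc min (dn ((m : ℝ) ^ k * x)) (1 / m) / (m : ℝ) ^ (k + 1) ≤ 1 / (m : ℝ) ^ (k + 1) := by gcongr
    _ ≤ 1 / 2 ^ k := by gcongr

theorem T_eq_SS (x : ℝ) : T x = 16 * SS 4 x := by
  unfold T SS
  have hs := summable_T x
  have he : Summable fun k : ℕ => 2 * dn (2 ^ (2 * k) * x) / 2 ^ (2 * k) :=
    hs.comp_injective (i := fun k : ℕ => 2 * k) (fun a b h => by simpa using h)
  have ho : Summable fun k : ℕ => 2 * dn (2 ^ (2 * k + 1) * x) / 2 ^ (2 * k + 1) :=
    hs.comp_injective (i := fun k : ℕ => 2 * k + 1) (fun a b h => by simpa using h)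
  rw [← tsum_even_add_odd he ho, ← he.tsum_add ho, ← tsum_mul_left]
  refine tsum_congr fun k => ?_
  have h := kernel (4 ^ k * x)
  rw [← mul_assoc 2 (4 ^ k) x] at h
  have e1 : (2 : ℝ) ^ (2 * k) = 4 ^ k := by rw [pow_mul]; norm_num
  have e2 : (2 : ℝ) ^ (2 * k + 1) = 2 * 4 ^ k := by rw [pow_succ, e1]; ring
  rw [e1, e2]
  push_cast
  rw [pow_succ (4 : ℝ) k]
  have h4 : (0 : ℝ) < 4 ^ k := by positivity
  field_simp
  linarith

/-! ### general `m` -/

/-- bounded above on the unit interval -/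
def BA (f : ℝ → ℝ) : Prop := ∃ S, ∀ t, 0 ≤ t → t ≤ 1 → f t ≤ S

theorem weak_le_gg {m : ℕ} (hm : 2 ≤ m) {f : ℝ → ℝ} (hf : Weak m 1 f) (hS : BA f) {x : ℝ}
    (h0 : 0 ≤ x) (h1 : x ≤ 1) : f x ≤ gg x + 4 / m := by
  have hm' : (2 : ℝ) ≤ m := by exact_mod_cast hm
  have h4 : (0 : ℝ) ≤ 4 / m := by positivity
  rcases h0.eq_or_lt with h | h
  · rw [← h, gg_zero]
    linarith [hf.1]
  rcases h1.eq_or_lt with h' | h'
  · rw [h', gg_one]
    linarith [hf.2.1]
  have hr := weak_reflect (by omega) hf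
  have hSr : BA (fun x => f (1 - x)) := by
    obtain ⟨S, hS⟩ := hS
    exact ⟨S, fun t a b => hS _ (by linarith) (by linarith)⟩
  have k1 : f x - 4 / m ≤ hh x := le_hh fun k => by
    have := weak_upper hm hf (fun t a b => weak_le_two hm hf hS a b) h h1 k
    linarith
  have k2 : f x - 4 / m ≤ hh (1 - x) := le_hh fun k => by
    have := weak_upper hm hr (fun t a b => weak_le_two hm hr hSr a b) (x := 1 - x) (by linarith)
      (by linarith) k
    rw [show 1 - (1 - x) = x by ring] at this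
    linarith
  have := le_min k1 k2
  unfold gg
  linarith

lemma hh_mono {x y : ℝ} (hx : 0 ≤ x) (hxy : x ≤ y) : hh x ≤ hh y := by
  refine le_hh fun k => (hh_le hx k).trans ?_
  have : x ^ ((k : ℝ) / (k + 1)) ≤ y ^ ((k : ℝ) / (k + 1)) :=
    Real.rpow_le_rpow hx hxy (by positivity)
  exact mul_le_mul_of_nonneg_left this (by positivity)

lemma gg_eq {x : ℝ} (h0 : 0 ≤ x) (h1 : x ≤ 1) : gg x = hh (min x (1 - x)) := by
  unfold gg
  rcases le_total x (1 - x) with h | h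
  · rw [min_eq_left h, min_eq_left (hh_mono h0 h)]
  · rw [min_eq_right h, min_eq_right (hh_mono (by linarith) h)]

/-- the value at `4/m²` -/
theorem weak_small {m : ℕ} (hm : 2 ≤ m) {f : ℝ → ℝ} (hf : Weak m 1 f) :
    f (4 / (m : ℝ) ^ 2) ≤ 4 / m := by
  have hm' : (2 : ℝ) ≤ m := by exact_mod_cast hm
  have h1 := weak_three hf (j := 1) (y := 1) (b := 1) (by omega) zero_le_one le_rfl le_rfl
  rw [show ((1 : ℕ) * 1 + 1 : ℝ) / m = 2 / m by push_cast; norm_num] at h1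
  have h2 : (((1 : ℕ) : ℝ) * f 1 + f 1) / m ≤ 0 := by
    apply div_nonpos_of_nonpos_of_nonneg _ (by linarith)
    push_cast
    linarith [hf.2.1]
  have h3 := weak_three hf (j := 1) (y := 2 / m) (b := 2 / m) (by omega) (by positivity) le_rfl
    (by rw [div_le_one (by linarith)]; exact hm')
  rw [show (((1 : ℕ) : ℝ) * (2 / m) + 2 / m) / m = 4 / (m : ℝ) ^ 2 by
    push_cast; field_simp; norm_num] at h3
  have h4 : (((1 : ℕ) : ℝ) * f (2 / m) + f (2 / m)) / m ≤ 2 / m := by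
    apply div_le_div_of_nonneg_right _ (by linarith)
    push_cast
    linarith
  have h5 : (4 : ℝ) / m = 2 / m + 2 / m := by ring
  rw [h5]
  linarith

lemma SS_half {m : ℕ} (hm : 2 ≤ m) : SS m (((m / 2 : ℕ) : ℝ) / m) = 1 / (m : ℝ) ^ 2 := by
  have hm' : (2 : ℝ) ≤ m := by exact_mod_cast hm
  unfold SS
  rw [tsum_eq_single 0]
  · have h1 : (1 : ℝ) ≤ (m / 2 : ℕ) := by
      have : 1 ≤ m / 2 := by omega
      exact_mod_cast this
    have h2 : ((m / 2 : ℕ) : ℝ) / m ≤ 1 / 2 := by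
      rw [div_le_div_iff₀ (by linarith) (by norm_num)]
      have : m / 2 * 2 ≤ 1 * m := by omega
      exact_mod_cast this
    rw [pow_zero, one_mul, dn_eq_of_le_half (by positivity) h2, min_eq_right (by gcongr),
      zero_add, pow_one, div_div, ← sq]
  · intro k hk
    obtain ⟨l, rfl⟩ : ∃ l, k = l + 1 := ⟨k - 1, by omega⟩
    have e : (m : ℝ) ^ (l + 1) * (((m / 2 : ℕ) : ℝ) / m) = ((m ^ l * (m / 2) : ℕ) : ℝ) := by
      rw [Nat.cast_mul, Nat.cast_pow, pow_succ]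
      field_simp
    rw [e, ← Int.cast_natCast, dn_int, min_eq_left (by positivity), zero_div]

lemma SS_small {m : ℕ} (hm : 5 ≤ m) : 5 / (m : ℝ) ^ 3 ≤ SS m (4 / (m : ℝ) ^ 2) := by
  have hm' : (5 : ℝ) ≤ m := by exact_mod_cast hm
  have h := (SS_summable (by omega : 2 ≤ m) (4 / (m : ℝ) ^ 2)).sum_le_tsum (range 2)
    (fun i _ => SS_term_nonneg m _ i)
  refine le_trans ?_ h
  rw [Finset.sum_range_succ, Finset.sum_range_one]
  have e1 : (m : ℝ) ^ 1 * (4 / (m : ℝ) ^ 2) = 4 / m := by field_simp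
  rw [e1, pow_zero, one_mul]
  have h1 : (4 : ℝ) / m ^ 2 ≤ 1 / m := by
    rw [div_le_div_iff₀ (by positivity) (by linarith)]
    nlinarith
  have h2 : (1 : ℝ) / m ≤ 1 / 2 := by
    rw [div_le_div_iff₀ (by linarith) (by norm_num)]
    linarith
  rw [dn_eq_of_le_half (by positivity) (h1.trans h2), min_eq_left h1]
  have h3 : 1 / (m : ℝ) ≤ dn (4 / m) := by
    rcases le_total ((4 : ℝ) / m) (1 / 2) with h' | h'
    · rw [dn_eq_of_le_half (by positivity) h']
      gcongr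
      norm_num
    · rw [dn_eq_of_half_le h' (by rw [div_le_one (by linarith)]; linarith)]
      rw [le_sub_iff_add_le, ← add_div, div_le_one (by linarith)]
      linarith
  rw [min_eq_right h3]
  have e2 : (4 : ℝ) / m ^ 2 / m ^ (0 + 1) + 1 / m / m ^ (1 + 1) = 5 / m ^ 3 := by
    field_simp
    ring
  rw [e2]

/-! ### unbounded members -/

theorem exists_big {m : ℕ} (hm : 0 < m) {c : ℝ} (hc : 0 < c) {x : ℝ} (hx : Irrational x) (B : ℝ) :
    ∃ f, Weak m c f ∧ B < f x := by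
  have hnot : x ∉ Submodule.span ℚ {(1 : ℝ)} := by
    intro hmem
    obtain ⟨q, hq⟩ := Submodule.mem_span_singleton.1 hmem
    apply hx
    refine ⟨q, ?_⟩
    rw [← hq, Rat.smul_def, mul_one]
  obtain ⟨A, hA, hA'⟩ := Submodule.exists_dual_map_eq_bot_of_notMem hnot inferInstance
  have hA1 : A 1 = 0 := by
    have : A 1 ∈ (Submodule.span ℚ {(1 : ℝ)}).map A :=
      ⟨1, Submodule.mem_span_singleton_self _, rfl⟩
    rw [hA'] at this
    exact (Submodule.mem_bot ℚ).1 this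
  have hAx : ((A x : ℚ) : ℝ) ≠ 0 := by exact_mod_cast hA
  set r : ℝ := (|B| + 1) / ((A x : ℚ) : ℝ) with hr
  have hm' : (0 : ℝ) < m := by exact_mod_cast hm
  refine ⟨fun t => r * ((A t : ℚ) : ℝ), ⟨?_, ?_, ?_⟩, ?_⟩
  · simp
  · simp [hA1]
  · intro y hy hyi p q hpq
    have e : (∑ i, y i) / (m : ℝ) = ((1 / m : ℚ)) • ∑ i, y i := by
      rw [Rat.smul_def]
      push_cast
      ring
    have e2 : r * ((A ((∑ i, y i) / (m : ℝ)) : ℚ) : ℝ) = (∑ i, r * ((A (y i) : ℚ) : ℝ)) / m := by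
      rw [e, map_smul, map_sum, smul_eq_mul, ← Finset.mul_sum]
      push_cast
      ring
    show r * ((A ((∑ i, y i) / (m : ℝ)) : ℚ) : ℝ) ≤
      (∑ i, r * ((A (y i) : ℚ) : ℝ)) / m + c * (y q - y p)
    rw [e2]
    have h1 : y p ≤ y q := hy ((hpq p).2)
    have h2 : 0 ≤ c * (y q - y p) := mul_nonneg hc.le (by linarith)
    linarith
  · show B < r * ((A x : ℚ) : ℝ)
    rw [hr, div_mul_cancel₀ _ hAx]
    linarith [le_abs_self B]

/-! ### the extremal function -/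

/-- the values -/
def vals (m : ℕ) (c x : ℝ) : Set ℝ := {y | ∃ f, Weak m c f ∧ BA f ∧ f x = y}

/-- the extremal function -/
noncomputable def FF (m : ℕ) (c x : ℝ) : ℝ := sSup (vals m c x)

lemma weak_zero (m : ℕ) {c : ℝ} (hc : 0 < c) : Weak m c (fun _ => 0) := by
  refine ⟨le_rfl, le_rfl, fun x hx _ p q hpq => ?_⟩
  have h1 : x p ≤ x q := hx ((hpq p).2)
  have h2 : 0 ≤ c * (x q - x p) := mul_nonneg hc.le (by linarith)
  simpa using h2

lemma ba_div {f : ℝ → ℝ} {c : ℝ} (hc : 0 < c) (h : BA f) : BA (fun x => f x / c) := by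
  obtain ⟨S, hS⟩ := h
  exact ⟨S / c, fun t a b => div_le_div_of_nonneg_right (hS t a b) hc.le⟩

lemma vals_le {m : ℕ} (hm : 2 ≤ m) {c : ℝ} (hc : 0 < c) {x : ℝ} (h0 : 0 ≤ x) (h1 : x ≤ 1) :
    ∀ y ∈ vals m c x, y ≤ 2 * c := by
  rintro y ⟨f, hf, hb, rfl⟩
  have := weak_le_two hm ((weak_scale hc f).1 hf) (ba_div hc hb) h0 h1
  rwa [div_le_iff₀ hc] at this

theorem FF_greatest {m : ℕ} (hm : 2 ≤ m) {c : ℝ} (hc : 0 < c) {x : ℝ} (h0 : 0 ≤ x) (h1 : x ≤ 1) :
    IsGreatest (vals m c x) (FF m c x) := by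
  have hne : ∀ t, (vals m c t).Nonempty := fun t => ⟨0, _, weak_zero m hc, ⟨0, fun _ _ _ => le_rfl⟩, rfl⟩
  have hbd : ∀ t, 0 ≤ t → t ≤ 1 → BddAbove (vals m c t) := fun t a b => ⟨2 * c, vals_le hm hc a b⟩
  refine ⟨⟨FF m c, ⟨?_, ?_, ?_⟩, ⟨2 * c, fun t a b => csSup_le (hne t) (vals_le hm hc a b)⟩, rfl⟩,
    fun y hy => le_csSup (hbd x h0 h1) hy⟩
  · refine csSup_le (hne 0) ?_
    rintro y ⟨f, hf, -, rfl⟩
    exact hf.1
  · refine csSup_le (hne 1) ?_
    rintro y ⟨f, hf, -, rfl⟩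
    exact hf.2.1
  · intro z hz hzi p q hpq
    refine csSup_le (hne _) ?_
    rintro y ⟨f, hf, hb, rfl⟩
    refine (hf.2.2 z hz hzi p q hpq).trans ?_
    have hs : ∑ i, f (z i) ≤ ∑ i, FF m c (z i) :=
      Finset.sum_le_sum fun i _ => le_csSup (hbd _ (hzi i).1 (hzi i).2) ⟨f, hf, hb, rfl⟩
    have := div_le_div_of_nonneg_right hs (Nat.cast_nonneg (α := ℝ) m)
    linarith

/-- scaling a member -/
lemma weak_mul {m : ℕ} {c : ℝ} (hc : 0 < c) {f : ℝ → ℝ} (hf : Weak m 1 f) :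
    Weak m c (fun x => c * f x) := by
  rw [weak_scale hc]
  have : (fun x => c * f x / c) = f := by
    funext x
    field_simp
  rw [this]
  exact hf

/-- identification -/
theorem FF_eq {m : ℕ} {c : ℝ} (hc : 0 < c) {G : ℝ → ℝ} (hG : Weak m 1 G) (hB : BA G) {x : ℝ}
    (hup : ∀ f, Weak m 1 f → BA f → f x ≤ G x) : FF m c x = c * G x := by
  refine IsGreatest.csSup_eq ⟨⟨_, weak_mul hc hG, ?_, rfl⟩, ?_⟩
  · obtain ⟨S, hS⟩ := hB
    exact ⟨c * S, fun t a b => mul_le_mul_of_nonneg_left (hS t a b) hc.le⟩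
  · rintro y ⟨f, hf, hb, rfl⟩
    have := hup _ ((weak_scale hc f).1 hf) (ba_div hc hb)
    rw [div_le_iff₀ hc] at this
    linarith

theorem FF_bounds {m : ℕ} (hm : 2 ≤ m) {c : ℝ} (hc : 0 < c) {x : ℝ} (h0 : 0 ≤ x) (h1 : x ≤ 1) :
    c * gg x ≤ FF m c x ∧ FF m c x ≤ c * (gg x + 4 / m) := by
  have hg := FF_greatest hm hc h0 h1
  constructor
  · refine hg.2 ⟨_, weak_mul hc (gg_weak (by omega)), ?_, rfl⟩
    exact ⟨c * 1, fun t a b => mul_le_mul_of_nonneg_left (gg_le_one a) hc.le⟩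
  · obtain ⟨f, hf, hb, he⟩ := hg.1
    rw [← he]
    have := weak_le_gg hm ((weak_scale hc f).1 hf) (ba_div hc hb) h0 h1
    rw [div_le_iff₀ hc] at this
    linarith

theorem FF_small {m : ℕ} (hm : 2 ≤ m) {c : ℝ} (hc : 0 < c) :
    FF m c (4 / (m : ℝ) ^ 2) ≤ 4 * c / m := by
  have hm' : (2 : ℝ) ≤ m := by exact_mod_cast hm
  have h1 : (4 : ℝ) / m ^ 2 ≤ 1 := by
    rw [div_le_one (by positivity)]
    nlinarith
  obtain ⟨f, hf, -, he⟩ := (FF_greatest hm hc (x := 4 / (m : ℝ) ^ 2) (by positivity) h1).1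
  rw [← he]
  have := weak_small hm ((weak_scale hc f).1 hf)
  rw [div_le_iff₀ hc] at this
  calc f (4 / (m : ℝ) ^ 2) ≤ 4 / m * c := this
    _ = _ := by ring

theorem formula_fails {m : ℕ} (hm : 5 ≤ m) {c : ℝ} (hc : 0 < c) (A : ℝ) :
    ∃ x, 0 ≤ x ∧ x ≤ 1 ∧ FF m c x ≠ A * SS m x := by
  by_contra hcon
  push Not at hcon
  have hm' : (5 : ℝ) ≤ m := by exact_mod_cast hm
  have hm0 : (0 : ℝ) < m := by linarith
  have a1 : (1 / 4 : ℝ) ≤ ((m / 2 : ℕ) : ℝ) / m := by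
    rw [div_le_div_iff₀ (by norm_num) hm0]
    have : 1 * m ≤ m / 2 * 4 := by omega
    exact_mod_cast this
  have a2 : ((m / 2 : ℕ) : ℝ) / m ≤ 3 / 4 := by
    rw [div_le_div_iff₀ hm0 (by norm_num)]
    have : m / 2 * 4 ≤ 3 * m := by omega
    exact_mod_cast this
  have h1 := hcon (((m / 2 : ℕ) : ℝ) / m) (by linarith) (by linarith)
  have h2 := (FF_bounds (by omega : 2 ≤ m) hc (x := ((m / 2 : ℕ) : ℝ) / m) (by linarith)
    (by linarith)).1
  rw [gg_mid a1 a2, mul_one, h1, SS_half (by omega)] at h2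
  have h3 : (4 : ℝ) / m ^ 2 ≤ 1 := by
    rw [div_le_one (by positivity)]
    nlinarith
  have h4 := hcon (4 / (m : ℝ) ^ 2) (by positivity) h3
  have h5 := FF_small (by omega : 2 ≤ m) hc
  rw [h4] at h5
  have h6 := SS_small hm
  have hA : c * (m : ℝ) ^ 2 ≤ A := by
    have := mul_le_mul_of_nonneg_right h2 (show (0 : ℝ) ≤ m ^ 2 by positivity)
    calc c * (m : ℝ) ^ 2 ≤ A * (1 / (m : ℝ) ^ 2) * m ^ 2 := this
      _ = A := by field_simp
  have hA0 : 0 ≤ A := le_trans (by positivity) hA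
  have h7 : A * (5 / (m : ℝ) ^ 3) ≤ 4 * c / m := (mul_le_mul_of_nonneg_left h6 hA0).trans h5
  have h8 : c * (m : ℝ) ^ 2 * (5 / (m : ℝ) ^ 3) ≤ 4 * c / m :=
    (mul_le_mul_of_nonneg_right hA (by positivity)).trans h7
  have e : c * (m : ℝ) ^ 2 * (5 / (m : ℝ) ^ 3) = 5 * c / m := by field_simp
  rw [e, div_le_div_iff_of_pos_right hm0] at h8
  linarith

end Pool.Agent.Y507.WC
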