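import Pool.Agent.Y507.WC.Cls

/-!
The lower bound: an explicit function in all the classes.
-/

set_option autoImplicit false

namespace Pool.Agent.Y507.WC

open Finset Filter Topology Set

/-- `inf_k (k+1) x^(k/(k+1))` -/
noncomputable def hh (x : ℝ) : ℝ := ⨅ k : ℕ, ((k : ℝ) + 1) * x ^ ((k : ℝ) / ((k : ℝ) + 1))

lemma hh_bdd {x : ℝ} (hx : 0 ≤ x) :
    BddBelow (range fun k : ℕ => ((k : ℝ) + 1) * x ^ ((k : ℝ) / ((k : ℝ) + 1))) := by
  refine ⟨0, ?_⟩
  rintro _ ⟨k, rfl⟩
  have := Real.rpow_nonneg hx ((k : ℝ) / ((k : ℝ) + 1))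
  positivity

lemma hh_le {x : ℝ} (hx : 0 ≤ x) (k : ℕ) : hh x ≤ ((k : ℝ) + 1) * x ^ ((k : ℝ) / ((k : ℝ) + 1)) :=
  ciInf_le (hh_bdd hx) k

lemma le_hh {x c : ℝ} (h : ∀ k : ℕ, c ≤ ((k : ℝ) + 1) * x ^ ((k : ℝ) / ((k : ℝ) + 1))) :
    c ≤ hh x := le_ciInf h

lemma hh_nonneg {x : ℝ} (hx : 0 ≤ x) : 0 ≤ hh x := le_hh fun k => by
  have := Real.rpow_nonneg hx ((k : ℝ) / ((k : ℝ) + 1))
  positivity

lemma hh_le_one {x : ℝ} (hx : 0 ≤ x) : hh x ≤ 1 := by
  have := hh_le hx 0
  simpa using this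

lemma hh_zero : hh 0 = 0 := by
  apply le_antisymm _ (hh_nonneg le_rfl)
  have := hh_le (le_refl (0 : ℝ)) 1
  rw [Real.zero_rpow (by norm_num)] at this
  simpa using this

lemma pow_hh {x : ℝ} (hx : 0 ≤ x) (k : ℕ) :
    (((k : ℝ) + 1) * x ^ ((k : ℝ) / ((k : ℝ) + 1))) ^ (k + 1) = ((k : ℝ) + 1) ^ (k + 1) * x ^ k := by
  rw [mul_pow, ← Real.rpow_natCast (x ^ _), ← Real.rpow_mul hx, ← Real.rpow_natCast x k]
  congr 2
  push_cast
  field_simp

lemma four_pow_le (k : ℕ) : (4 : ℝ) ^ k ≤ ((k : ℝ) + 1) ^ (k + 1) := by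
  rcases Nat.lt_or_ge k 3 with h | h
  · interval_cases k <;> norm_num
  · have h' : (3 : ℝ) ≤ k := by exact_mod_cast h
    calc (4 : ℝ) ^ k ≤ 4 ^ (k + 1) := pow_le_pow_right₀ (by norm_num) (by omega)
      _ ≤ _ := pow_le_pow_left₀ (by norm_num) (by linarith) _

lemma one_le_hh {x : ℝ} (hx : 1 / 4 ≤ x) : 1 ≤ hh x := by
  have hx0 : 0 ≤ x := by linarith
  refine le_hh fun k => ?_
  have hnn : 0 ≤ ((k : ℝ) + 1) * x ^ ((k : ℝ) / ((k : ℝ) + 1)) := by
    have := Real.rpow_nonneg hx0 ((k : ℝ) / ((k : ℝ) + 1))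
    positivity
  by_contra hcon
  push Not at hcon
  have h1 := pow_lt_one₀ hnn hcon (n := k + 1) (by omega)
  rw [pow_hh hx0] at h1
  have h2 : (1 / 4 : ℝ) ^ k ≤ x ^ k := pow_le_pow_left₀ (by norm_num) hx k
  have h3 := four_pow_le k
  have h4 : (4 : ℝ) ^ k * (1 / 4) ^ k = 1 := by
    rw [← mul_pow]
    norm_num
  have h5 : (0 : ℝ) < (1 / 4) ^ k := by positivity
  have h6 : (4 : ℝ) ^ k * (1 / 4) ^ k ≤ ((k : ℝ) + 1) ^ (k + 1) * x ^ k :=
    mul_le_mul h3 h2 h5.le (by positivity)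
  linarith

lemma hh_lin {x : ℝ} (hx0 : 0 ≤ x) (hx : x ≤ 1 / 4) : 4 * x ≤ hh x := by
  refine le_hh fun k => ?_
  have hnn : 0 ≤ ((k : ℝ) + 1) * x ^ ((k : ℝ) / ((k : ℝ) + 1)) := by
    have := Real.rpow_nonneg hx0 ((k : ℝ) / ((k : ℝ) + 1))
    positivity
  by_contra hcon
  push Not at hcon
  have h1 := pow_lt_pow_left₀ hcon hnn (n := k + 1) (by omega)
  rw [pow_hh hx0] at h1
  have h3 := four_pow_le k
  have h4 : (4 * x) ^ (k + 1) = 4 ^ k * x ^ k * (4 * x) := by
    rw [pow_succ, mul_pow]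
  rw [h4] at h1
  have h5 : (4 : ℝ) ^ k * x ^ k * (4 * x) ≤ 4 ^ k * x ^ k * 1 :=
    mul_le_mul_of_nonneg_left (by linarith) (by positivity)
  have h6 : (4 : ℝ) ^ k * x ^ k ≤ ((k : ℝ) + 1) ^ (k + 1) * x ^ k :=
    mul_le_mul_of_nonneg_right h3 (by positivity)
  linarith

lemma hh_concave {x y a b : ℝ} (hx : 0 ≤ x) (hy : 0 ≤ y) (ha : 0 ≤ a) (hb : 0 ≤ b)
    (hab : a + b = 1) : a * hh x + b * hh y ≤ hh (a * x + b * y) := by
  refine le_hh fun k => ?_
  have hp0 : (0 : ℝ) ≤ (k : ℝ) / (k + 1) := by positivity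
  have hp1 : (k : ℝ) / (k + 1) ≤ 1 := by
    rw [div_le_one (by positivity)]
    linarith
  have h := (Real.concaveOn_rpow hp0 hp1).2 (mem_Ici.2 hx) (mem_Ici.2 hy) ha hb hab
  simp only [smul_eq_mul] at h
  have h1 := mul_le_mul_of_nonneg_left (hh_le hx k) ha
  have h2 := mul_le_mul_of_nonneg_left (hh_le hy k) hb
  have h3 : ((k : ℝ) + 1) * (a * x ^ ((k : ℝ) / (k + 1)) + b * y ^ ((k : ℝ) / (k + 1))) ≤
      ((k : ℝ) + 1) * (a * x + b * y) ^ ((k : ℝ) / (k + 1)) :=
    mul_le_mul_of_nonneg_left h (by positivity)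
  linarith

lemma hh_base {μ b : ℝ} (hμ : 0 ≤ μ) (hb : 0 < b) : b * hh μ ≤ μ * hh b + b ^ 2 := by
  rcases hμ.eq_or_lt with h0 | h0
  · rw [← h0, hh_zero]
    have := sq_nonneg b
    linarith
  have key : (hh μ - b) * b / μ ≤ hh b := by
    refine le_hh fun k => ?_
    have hk2 : (0 : ℝ) < k + 2 := by positivity
    have hk1 : (0 : ℝ) < k + 1 := by positivity
    have h1 := hh_le hμ (k + 1)
    push_cast at h1
    rw [show (k : ℝ) + 1 + 1 = k + 2 by ring] at h1
    have h2 := Real.geom_mean_le_arith_mean2_weighted (w₁ := ((k : ℝ) + 1) / (k + 2))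
      (w₂ := 1 / (k + 2)) (p₁ := μ * b ^ (-(1 / ((k : ℝ) + 1)))) (p₂ := b) (by positivity)
      (by positivity) (by positivity) hb.le (by field_simp; ring)
    rw [Real.mul_rpow hμ (Real.rpow_nonneg hb.le _), ← Real.rpow_mul hb.le, mul_assoc,
      ← Real.rpow_add hb] at h2
    have e1 : -(1 / ((k : ℝ) + 1)) * (((k : ℝ) + 1) / (k + 2)) + 1 / (k + 2) = 0 := by
      field_simp
      ring
    rw [e1, Real.rpow_zero, mul_one] at h2
    have e2 : b ^ (-(1 / ((k : ℝ) + 1))) = b ^ ((k : ℝ) / (k + 1)) / b := by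
      rw [show -(1 / ((k : ℝ) + 1)) = (k : ℝ) / (k + 1) - 1 by field_simp; ring,
        Real.rpow_sub_one hb.ne']
    rw [e2] at h2
    set A := b ^ ((k : ℝ) / (k + 1)) with hA
    have h3 : ((k : ℝ) + 2) * μ ^ (((k : ℝ) + 1) / (k + 2)) ≤ (k + 1) * (μ * (A / b)) + b := by
      calc ((k : ℝ) + 2) * μ ^ (((k : ℝ) + 1) / (k + 2))
          ≤ (k + 2) * ((k + 1) / (k + 2) * (μ * (A / b)) + 1 / (k + 2) * b) :=
            mul_le_mul_of_nonneg_left h2 hk2.le
        _ = _ := by field_simp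
    have h4 : hh μ - b ≤ (k + 1) * (μ * (A / b)) := by linarith
    rw [div_le_iff₀ h0]
    calc (hh μ - b) * b ≤ (k + 1) * (μ * (A / b)) * b := mul_le_mul_of_nonneg_right h4 hb.le
      _ = _ := by field_simp
  rw [div_le_iff₀ h0] at key
  nlinarith

/-- the symmetric function -/
noncomputable def gg (x : ℝ) : ℝ := min (hh x) (hh (1 - x))

lemma gg_symm (x : ℝ) : gg (1 - x) = gg x := by
  unfold gg
  rw [show 1 - (1 - x) = x by ring, min_comm]

lemma gg_nonneg {x : ℝ} (h0 : 0 ≤ x) (h1 : x ≤ 1) : 0 ≤ gg x :=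
  le_min (hh_nonneg h0) (hh_nonneg (by linarith))

lemma gg_le_one {x : ℝ} (h0 : 0 ≤ x) : gg x ≤ 1 := (min_le_left _ _).trans (hh_le_one h0)

lemma gg_zero : gg 0 = 0 := by
  apply le_antisymm
  · exact (min_le_left _ _).trans hh_zero.le
  · exact gg_nonneg le_rfl zero_le_one

lemma gg_one : gg 1 = 0 := by
  have := gg_symm 0
  rw [sub_zero, gg_zero] at this
  exact this

lemma gg_mid {x : ℝ} (h0 : 1 / 4 ≤ x) (h1 : x ≤ 3 / 4) : gg x = 1 := by
  apply le_antisymm (gg_le_one (by linarith))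
  exact le_min (one_le_hh h0) (one_le_hh (by linarith))

lemma gg_concave {x y a b : ℝ} (hx0 : 0 ≤ x) (hx1 : x ≤ 1) (hy0 : 0 ≤ y) (hy1 : y ≤ 1)
    (ha : 0 ≤ a) (hb : 0 ≤ b) (hab : a + b = 1) :
    a * gg x + b * gg y ≤ gg (a * x + b * y) := by
  refine le_min ?_ ?_
  · refine le_trans ?_ (hh_concave hx0 hy0 ha hb hab)
    exact add_le_add (mul_le_mul_of_nonneg_left (min_le_left _ _) ha)
      (mul_le_mul_of_nonneg_left (min_le_left _ _) hb)
  · have e : 1 - (a * x + b * y) = a * (1 - x) + b * (1 - y) := by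
      linear_combination (-1 : ℝ) * hab
    rw [e]
    refine le_trans ?_ (hh_concave (x := 1 - x) (y := 1 - y) (by linarith) (by linarith) ha hb hab)
    exact add_le_add (mul_le_mul_of_nonneg_left (min_le_right _ _) ha)
      (mul_le_mul_of_nonneg_left (min_le_right _ _) hb)

/-- three point form of concavity -/
lemma gg_three {x y z : ℝ} (hx0 : 0 ≤ x) (hxy : x ≤ y) (hyz : y ≤ z) (hz1 : z ≤ 1) :
    (z - y) * gg x + (y - x) * gg z ≤ (z - x) * gg y := by
  rcases (hxy.trans hyz).eq_or_lt with h | h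
  · have h1 : x = y := le_antisymm hxy (h ▸ hyz)
    have h2 : y = z := by rw [← h1]; exact h
    subst h1
    subst h2
    simp
  have hpos : 0 < z - x := by linarith
  have hc := gg_concave (x := x) (y := z) (a := (z - y) / (z - x)) (b := (y - x) / (z - x))
    hx0 (by linarith) (by linarith) hz1 (div_nonneg (by linarith) hpos.le)
    (div_nonneg (by linarith) hpos.le) (by rw [← add_div]; rw [div_eq_one_iff_eq hpos.ne']; ring)
  have e : (z - y) / (z - x) * x + (y - x) / (z - x) * z = y := by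
    field_simp
    ring
  rw [e] at hc
  have := mul_le_mul_of_nonneg_left hc hpos.le
  calc (z - y) * gg x + (y - x) * gg z
      = (z - x) * ((z - y) / (z - x) * gg x + (y - x) / (z - x) * gg z) := by
        field_simp
    _ ≤ _ := this

lemma gg_base {μ b : ℝ} (hμ : 0 ≤ μ) (hμb : μ ≤ b) (hb : 0 < b) (hb1 : b ≤ 1) :
    b * gg μ ≤ μ * gg b + b ^ 2 := by
  rcases le_or_gt b (3 / 4) with h | h
  · have e : gg b = hh b := min_eq_left ((hh_le_one hb.le).trans (one_le_hh (by linarith)))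
    rw [e]
    have := hh_base hμ hb
    have h2 : b * gg μ ≤ b * hh μ := mul_le_mul_of_nonneg_left (min_le_left _ _) hb.le
    linarith
  · have hg : 4 * (1 - b) ≤ gg b := by
      refine le_min ?_ (hh_lin (by linarith) (by linarith))
      have := one_le_hh (x := b) (by linarith)
      linarith
    set y := gg μ with hy
    have hy0 : 0 ≤ y := gg_nonneg hμ (by linarith)
    have hy1 : y ≤ 1 := gg_le_one hμ
    have hy2 : y ^ 2 ≤ 4 * μ := by
      have h1 : y ≤ ((1 : ℕ) + 1 : ℝ) * μ ^ (((1 : ℕ) : ℝ) / (((1 : ℕ) : ℝ) + 1)) :=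
        (min_le_left _ _).trans (hh_le hμ 1)
      have h2 := pow_le_pow_left₀ hy0 h1 2
      have h3 := pow_hh hμ 1
      rw [show (1 + 1 : ℕ) = 2 by rfl] at h3
      rw [h3] at h2
      norm_num at h2
      exact h2
    have hb4 : 0 ≤ 1 - b := by linarith
    have h4 : y ^ 2 * (1 - b) ≤ μ * gg b := by
      have h5 : 4 * μ * (1 - b) ≤ μ * gg b := by
        have := mul_le_mul_of_nonneg_left hg hμ
        linarith
      have h6 := mul_le_mul_of_nonneg_right hy2 hb4
      linarith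
    have h7 : 0 ≤ (1 - y) * (b - (1 - b) * (1 + y)) := by
      refine mul_nonneg (by linarith) ?_
      nlinarith
    nlinarith [sq_nonneg (1 - b)]

/-- chord inequality, increasing case -/
lemma gg_chord_aux {a μ b : ℝ} (ha : 0 ≤ a) (haμ : a < μ) (hμb : μ < b) (hb : b ≤ 1)
    (hle : gg a ≤ gg b) :
    (b - a) * gg μ ≤ (b - μ) * gg a + (μ - a) * gg b + (b - a) ^ 2 := by
  have hba : 0 < b - a := by linarith
  have hμ0 : 0 < μ := by linarith
  set σ := (gg b - gg a) / (b - a) with hσ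
  have hσ0 : 0 ≤ σ := div_nonneg (by linarith) hba.le
  have hσe : σ * (b - a) = gg b - gg a := div_mul_cancel₀ _ hba.ne'
  set c := gg a - σ * a with hc
  have hcb : gg b - σ * b = c := by rw [hc]; linarith
  set M := gg μ - σ * μ with hM
  have hg0 := gg_zero
  -- it suffices to bound `M - c`
  suffices hmain : M - c ≤ b - a by
    have e : (b - μ) * gg a + (μ - a) * gg b = (b - a) * (c + σ * μ) := by
      have e1 : gg a = c + σ * a := by rw [hc]; ring
      have e2 : gg b = c + σ * b := by rw [← hcb]; ring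
      rw [e1, e2]
      ring
    rw [e]
    have := mul_le_mul_of_nonneg_left hmain hba.le
    rw [hM] at this
    nlinarith
  rcases le_or_gt M c with h | h
  · linarith
  have hc0 : 0 ≤ c := by
    have h1 := gg_three (x := 0) (y := a) (z := b) le_rfl ha (by linarith) hb
    rw [hg0, mul_zero, zero_add, sub_zero, sub_zero] at h1
    -- a * g b ≤ b * g a
    have h2 : c * (b - a) = b * gg a - a * gg b := by
      rw [hc]
      have : σ * a * (b - a) = a * (gg b - gg a) := by rw [← hσe]; ring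
      nlinarith
    by_contra hcon
    push Not at hcon
    nlinarith
  have hM0 : 0 < M := by linarith
  have hM1 : M ≤ 1 := by
    have := gg_le_one hμ0.le
    have : 0 ≤ σ * μ := mul_nonneg hσ0 hμ0.le
    linarith
  -- left end
  have hleft : a * M ≤ c * μ := by
    have h1 := gg_three (x := 0) (y := a) (z := μ) le_rfl ha haμ.le (by linarith)
    rw [hg0, mul_zero, zero_add, sub_zero, sub_zero] at h1
    rw [hM, hc]
    nlinarith
  -- right end
  have hright : c * μ + (M - c) * M ≤ b * M := by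
    rcases le_or_gt M μ with hMμ | hMμ
    · nlinarith
    · have hφ : σ * M ≤ gg M := by
        have h1 := gg_base hμ0.le hMμ.le hM0 hM1
        have h2 : gg μ = M + σ * μ := by rw [hM]; ring
        rw [h2] at h1
        have h3 : μ * (σ * M) ≤ μ * gg M := by nlinarith
        exact le_of_mul_le_mul_left h3 hμ0
      rcases le_or_gt M b with hMb | hMb
      · nlinarith
      · have h1 := gg_three (x := μ) (y := b) (z := M) hμ0.le hμb.le hMb.le hM1
        have h2 : gg μ = M + σ * μ := by rw [hM]; ring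
        have h3 : gg b = c + σ * b := by rw [← hcb]; ring
        rw [h2, h3] at h1
        have h4 : (b - μ) * (σ * M) ≤ (b - μ) * gg M :=
          mul_le_mul_of_nonneg_left hφ (by linarith)
        nlinarith
  have hfin : (M - c) * M ≤ (b - a) * M := by nlinarith
  exact le_of_mul_le_mul_right hfin hM0

lemma gg_chord {a μ b : ℝ} (ha : 0 ≤ a) (haμ : a ≤ μ) (hμb : μ ≤ b) (hb : b ≤ 1) :
    (b - a) * gg μ ≤ (b - μ) * gg a + (μ - a) * gg b + (b - a) ^ 2 := by
  rcases haμ.eq_or_lt with h1 | h1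
  · subst h1
    nlinarith [sq_nonneg (b - a)]
  rcases hμb.eq_or_lt with h2 | h2
  · subst h2
    nlinarith [sq_nonneg (μ - a)]
  rcases le_total (gg a) (gg b) with h | h
  · exact gg_chord_aux ha h1 h2 hb h
  · have := gg_chord_aux (a := 1 - b) (μ := 1 - μ) (b := 1 - a) (by linarith) (by linarith)
      (by linarith) (by linarith) (by rwa [gg_symm, gg_symm])
    rw [gg_symm, gg_symm, gg_symm] at this
    nlinarith

theorem gg_weak {m : ℕ} (hm : 0 < m) : Weak m 1 gg := by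
  refine weak_of_unsorted gg_zero.le gg_one.le ?_
  intro a b ha hb x hx
  have hm' : (0 : ℝ) < m := by exact_mod_cast hm
  set μ := (∑ i, x i) / (m : ℝ) with hμ
  have hsum : ∑ i, x i = m * μ := by rw [hμ]; field_simp
  have hcard : ∑ _i : Fin m, (1 : ℝ) = m := by simp
  have hμa : a ≤ μ := by
    rw [hμ, le_div_iff₀ hm']
    calc a * m = ∑ _i : Fin m, a := by simp [mul_comm]
      _ ≤ _ := Finset.sum_le_sum fun i _ => (hx i).1
  have hμb : μ ≤ b := by
    rw [hμ, div_le_iff₀ hm']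
    calc ∑ i, x i ≤ ∑ _i : Fin m, b := Finset.sum_le_sum fun i _ => (hx i).2
      _ = b * m := by simp [mul_comm]
  rcases (hμa.trans hμb).eq_or_lt with hab | hab
  · have hxi : ∀ i, x i = a := fun i => le_antisymm ((hx i).2.trans hab.ge) (hx i).1
    have hμ' : μ = a := le_antisymm (hμb.trans hab.ge) hμa
    have e : (∑ i, gg (x i)) / (m : ℝ) = gg a := by
      rw [Finset.sum_congr rfl fun i _ => by rw [hxi i]]
      simp [hm'.ne']
    rw [e, hμ', hab]
    simp
  · have hba : 0 < b - a := by linarith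
    have h1 : ∀ i, (b - x i) * gg a + (x i - a) * gg b ≤ (b - a) * gg (x i) := fun i =>
      gg_three ha (hx i).1 (hx i).2 hb
    have h2 : ∑ i, ((b - x i) * gg a + (x i - a) * gg b) ≤ (b - a) * ∑ i, gg (x i) := by
      rw [Finset.mul_sum]
      exact Finset.sum_le_sum fun i _ => h1 i
    have h3 : ∑ i, ((b - x i) * gg a + (x i - a) * gg b) =
        m * ((b - μ) * gg a + (μ - a) * gg b) := by
      rw [Finset.sum_add_distrib, ← Finset.sum_mul, ← Finset.sum_mul, Finset.sum_sub_distrib,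
        Finset.sum_sub_distrib, hsum]
      simp
      ring
    have h4 := gg_chord ha hμa hμb hb
    rw [h3] at h2
    have h5 : (b - μ) * gg a + (μ - a) * gg b ≤ (b - a) * ((∑ i, gg (x i)) / m) := by
      rw [← mul_le_mul_iff_right₀ hm']
      calc (m : ℝ) * ((b - μ) * gg a + (μ - a) * gg b) ≤ (b - a) * ∑ i, gg (x i) := h2
        _ = _ := by field_simp
    have h6 : (b - a) * gg μ ≤ (b - a) * ((∑ i, gg (x i)) / m + (b - a)) := by
      nlinarith
    exact le_of_mul_le_mul_left h6 hba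

end Pool.Agent.Y507.WC
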